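import Mathlib

/-! Shannon entropy of functions on a finite uniform probability space. -/

set_option autoImplicit false
open Finset

namespace Pool.Agent.Lib.MP_e840b2_an

variable {Ω : Type*} [Fintype Ω]

open Classical in
/-- Size of a fibre. -/
noncomputable def cnt {A : Type*} (f : Ω → A) (a : A) : ℕ := (univ.filter (fun ω => f ω = a)).card

/-- Entropy of `f` under the uniform measure. -/
noncomputable def H {A : Type*} (f : Ω → A) : ℝ :=
  (∑ ω, -Real.log ((cnt f (f ω) : ℝ) / Fintype.card Ω)) / Fintype.card Ω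

lemma cnt_pos {A : Type*} (f : Ω → A) (ω : Ω) : 0 < cnt f (f ω) := by
  classical
  unfold cnt
  exact card_pos.mpr ⟨ω, by simp⟩

lemma cnt_mono {A B : Type*} (f : Ω → A) (g : Ω → B)
    (h : ∀ ω ω', g ω = g ω' → f ω = f ω') (ω : Ω) : cnt g (g ω) ≤ cnt f (f ω) := by
  classical
  unfold cnt
  apply card_le_card
  intro x hx
  simp only [mem_filter, mem_univ, true_and] at hx ⊢
  exact h _ _ hx

lemma H_mono {A B : Type*} (f : Ω → A) (g : Ω → B)
    (h : ∀ ω ω', g ω = g ω' → f ω = f ω') : H f ≤ H g := by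
  unfold H
  apply div_le_div_of_nonneg_right _ (Nat.cast_nonneg _)
  apply sum_le_sum
  intro ω _
  have hc : (0 : ℝ) < Fintype.card Ω := by
    exact_mod_cast Fintype.card_pos_iff.mpr ⟨ω⟩
  apply neg_le_neg
  apply Real.log_le_log
  · exact div_pos (by exact_mod_cast cnt_pos g ω) hc
  · exact div_le_div_of_nonneg_right (by exact_mod_cast cnt_mono f g h ω) hc.le

lemma H_const {A : Type*} (f : Ω → A) (h : ∀ ω ω', f ω = f ω') : H f = 0 := by
  classical
  unfold H
  rw [sum_eq_zero, zero_div]
  intro ω _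
  have hc : (0 : ℝ) < Fintype.card Ω := by
    exact_mod_cast Fintype.card_pos_iff.mpr ⟨ω⟩
  have : cnt f (f ω) = Fintype.card Ω := by
    unfold cnt
    rw [filter_true_of_mem (fun x _ => h x ω)]
    rfl
  rw [this, div_self hc.ne', Real.log_one, neg_zero]

lemma sum_fiber {A : Type*} [DecidableEq A] (f : Ω → A) (F : A → ℝ) :
    ∑ ω, F (f ω) = ∑ a ∈ univ.image f, (cnt f a : ℝ) * F a := by
  rw [Finset.sum_comp F f]
  apply sum_congr rfl
  intro a _
  rw [nsmul_eq_mul]
  unfold cnt
  congr 2
  convert rfl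

/-- Sub-probability vectors. -/
def SubP {B : Type*} (q : B → ℝ) : Prop := (∀ b, 0 ≤ q b) ∧ ∀ s : Finset B, ∑ b ∈ s, q b ≤ 1

lemma SubP.prod {B C : Type*} {q : B → ℝ} {r : C → ℝ} (hq : SubP q) (hr : SubP r) :
    SubP (fun p : B × C => q p.1 * r p.2) := by
  classical
  refine ⟨fun p => mul_nonneg (hq.1 _) (hr.1 _), fun s => ?_⟩
  calc ∑ p ∈ s, q p.1 * r p.2
      ≤ ∑ p ∈ s.image Prod.fst ×ˢ s.image Prod.snd, q p.1 * r p.2 := by
        apply sum_le_sum_of_subset_of_nonneg
        · intro p hp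
          exact mem_product.mpr ⟨mem_image_of_mem _ hp, mem_image_of_mem _ hp⟩
        · intro p _ _
          exact mul_nonneg (hq.1 _) (hr.1 _)
    _ = (∑ b ∈ s.image Prod.fst, q b) * ∑ c ∈ s.image Prod.snd, r c := by
        rw [sum_product, sum_mul_sum]
    _ ≤ 1 * 1 := mul_le_mul (hq.2 _) (hr.2 _) (sum_nonneg fun c _ => hr.1 c) zero_le_one
    _ = 1 := one_mul 1

/-- Conditional Gibbs inequality. -/
lemma H_pair_le {A B : Type*} (f : Ω → A) (g : Ω → B) (κ : A → B → ℝ)
    (hκ : ∀ a, SubP (κ a)) (hpos : ∀ ω, 0 < κ (f ω) (g ω)) :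
    H (fun ω => (f ω, g ω)) ≤ H f + (∑ ω, -Real.log (κ (f ω) (g ω))) / Fintype.card Ω := by
  classical
  rcases isEmpty_or_nonempty Ω with hΩ | hΩ
  · simp [H]
  have hc : (0 : ℝ) < Fintype.card Ω := by exact_mod_cast Fintype.card_pos
  set p : Ω → A × B := fun ω => (f ω, g ω) with hp
  unfold H
  rw [← add_div]
  apply div_le_div_of_nonneg_right _ hc.le
  have key : ∑ ω, (κ (f ω) (g ω) * cnt f (f ω) / cnt p (p ω)) ≤ (Fintype.card Ω : ℝ) := by
    have h1 := sum_fiber p (fun x => κ x.1 x.2 * cnt f x.1 / cnt p x)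
    simp only [hp] at h1 ⊢
    rw [h1]
    calc ∑ x ∈ univ.image (fun ω => (f ω, g ω)),
          (cnt (fun ω => (f ω, g ω)) x : ℝ) * (κ x.1 x.2 * cnt f x.1 / cnt (fun ω => (f ω, g ω)) x)
        = ∑ x ∈ univ.image (fun ω => (f ω, g ω)), κ x.1 x.2 * cnt f x.1 := by
          apply sum_congr rfl
          intro x hx
          obtain ⟨ω, -, rfl⟩ := mem_image.mp hx
          have : (0 : ℝ) < cnt (fun ω => (f ω, g ω)) (f ω, g ω) := by
            exact_mod_cast cnt_pos (fun ω => (f ω, g ω)) ω
          field_simp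
      _ ≤ ∑ x ∈ univ.image f ×ˢ univ.image g, κ x.1 x.2 * cnt f x.1 := by
          apply sum_le_sum_of_subset_of_nonneg
          · intro x hx
            obtain ⟨ω, -, rfl⟩ := mem_image.mp hx
            exact mem_product.mpr ⟨mem_image_of_mem _ (mem_univ _), mem_image_of_mem _ (mem_univ _)⟩
          · intro x _ _
            exact mul_nonneg ((hκ _).1 _) (Nat.cast_nonneg _)
      _ = ∑ a ∈ univ.image f, (∑ b ∈ univ.image g, κ a b) * cnt f a := by
          rw [sum_product]
          apply sum_congr rfl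
          intro a _
          rw [sum_mul]
      _ ≤ ∑ a ∈ univ.image f, (cnt f a : ℝ) * 1 := by
          apply sum_le_sum
          intro a _
          rw [mul_comm]
          exact mul_le_mul_of_nonneg_left ((hκ a).2 _) (Nat.cast_nonneg _)
      _ = Fintype.card Ω := by
          rw [← sum_fiber f (fun _ => (1 : ℝ))]
          simp
  have step : ∀ ω, -Real.log ((cnt p (p ω) : ℝ) / Fintype.card Ω) ≤
      (-Real.log ((cnt f (f ω) : ℝ) / Fintype.card Ω) + -Real.log (κ (f ω) (g ω))) +
        (κ (f ω) (g ω) * cnt f (f ω) / cnt p (p ω) - 1) := by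
    intro ω
    have h1 : (0 : ℝ) < cnt p (p ω) := by exact_mod_cast cnt_pos p ω
    have h2 : (0 : ℝ) < cnt f (f ω) := by exact_mod_cast cnt_pos f ω
    have h3 := hpos ω
    have h4 := Real.log_le_sub_one_of_pos (div_pos (mul_pos h3 h2) h1)
    rw [Real.log_div (mul_pos h3 h2).ne' h1.ne', Real.log_mul h3.ne' h2.ne'] at h4
    rw [Real.log_div h1.ne' hc.ne', Real.log_div h2.ne' hc.ne']
    linarith
  have := sum_le_sum (fun ω (_ : ω ∈ (univ : Finset Ω)) => step ω)
  rw [sum_add_distrib, sum_add_distrib, sum_sub_distrib] at this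
  simp only [sum_const, card_univ, nsmul_eq_mul, mul_one] at this
  linarith

/-- Chain rule with a Markov-type coding kernel. -/
lemma H_chain {S : Type*} (X : ℕ → Ω → S) (κ : ℕ → S → S → ℝ) (c : ℝ) (K : ℕ)
    (h0 : ∀ ω ω', X 0 ω = X 0 ω')
    (hκ : ∀ k a, SubP (κ k a)) (hpos : ∀ k < K, ∀ ω, 0 < κ k (X k ω) (X (k + 1) ω))
    (hc : ∀ k < K, (∑ ω, -Real.log (κ k (X k ω) (X (k + 1) ω))) / Fintype.card Ω ≤ c) :
    H (X K) ≤ K * c := by
  have main : ∀ k ≤ K, H (fun ω (i : Fin (k + 1)) => X i ω) ≤ k * c := by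
    intro k
    induction k with
    | zero =>
      intro _
      rw [H_const]
      · simp
      · intro ω ω'
        funext i
        have : (i : ℕ) = 0 := by omega
        rw [this]
        exact h0 ω ω'
    | succ k ih =>
      intro hk
      have h1 := H_pair_le (fun ω (i : Fin (k + 1)) => X i ω) (X (k + 1))
        (fun a b => κ k (a (Fin.last k)) b) (fun a => hκ k _) (fun ω => hpos k (by omega) ω)
      have h2 : H (fun ω (i : Fin (k + 1 + 1)) => X i ω) ≤
          H (fun ω => ((fun i : Fin (k + 1) => X i ω), X (k + 1) ω)) := by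
        apply H_mono
        intro ω ω' h
        funext i
        rcases Nat.lt_or_ge (i : ℕ) (k + 1) with hi | hi
        · exact congrFun (Prod.mk.inj h).1 ⟨i, hi⟩
        · have : (i : ℕ) = k + 1 := by omega
          rw [this]
          exact (Prod.mk.inj h).2
      have h3 := ih (by omega)
      have h4 := hc k (by omega)
      simp only [Fin.val_last] at h1
      push_cast
      linarith
  refine le_trans ?_ (main K le_rfl)
  apply H_mono
  intro ω ω' h
  exact congrFun h (Fin.last K)

lemma H_eq_sum {A : Type*} [DecidableEq A] (f : Ω → A) :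
    H f = ∑ a ∈ univ.image f, Real.negMulLog ((cnt f a : ℝ) / Fintype.card Ω) := by
  unfold H
  rw [sum_fiber f (fun a => -Real.log ((cnt f a : ℝ) / Fintype.card Ω)), sum_div]
  apply sum_congr rfl
  intro a _
  unfold Real.negMulLog
  ring

/-- Averaging over a block of coordinates. -/
lemma sum_extend {I J B : Type*} [Fintype I] [Fintype J] [Fintype B] [DecidableEq I]
    [DecidableEq J] (ι : J → I) (hι : Function.Injective ι) (F : (I → B) → ℝ) :
    ∑ ω : I → B, ∑ b : J → B, F (Function.extend ι b ω) =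
      (Fintype.card (J → B) : ℝ) * ∑ ω : I → B, F ω := by
  let φ : (I → B) × (J → B) → (I → B) × (J → B) := fun p => (Function.extend ι p.2 p.1, p.1 ∘ ι)
  have hφ : Function.Involutive φ := by
    rintro ⟨ω, b⟩
    refine Prod.ext ?_ ?_
    · funext i
      simp only [φ]
      by_cases hi : ∃ j, ι j = i
      · obtain ⟨j, rfl⟩ := hi
        rw [hι.extend_apply]
        rfl
      · rw [Function.extend_apply' _ _ _ hi, Function.extend_apply' _ _ _ hi]
    · funext j
      simp only [φ, Function.comp]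
      rw [hι.extend_apply]
  rw [← Fintype.sum_prod_type' (f := fun ω b => F (Function.extend ι b ω))]
  have := Fintype.sum_equiv hφ.toPerm (fun p => F (Function.extend ι p.2 p.1)) (fun p => F p.1)
    (fun p => rfl)
  rw [this, Fintype.sum_prod_type]
  simp only [sum_const, card_univ, nsmul_eq_mul]
  rw [mul_sum]

end Pool.Agent.Lib.MP_e840b2_an
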