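import Mathlib

-- part Pool.Agent.Lib.MP_e840b2_an.Salem
section

/-! The quartic Salem number with minimal polynomial `x^4 - x^3 - x^2 - x + 1`. -/

set_option autoImplicit false
open Finset Real

namespace Pool.Agent.Lib.MP_e840b2_an

noncomputable def s13 : ℝ := √13
noncomputable def t1 : ℝ := (1 + s13) / 2
noncomputable def t2 : ℝ := (1 - s13) / 2
/-- The Salem number. -/
noncomputable def bb : ℝ := (t1 + √(t1 ^ 2 - 4)) / 2
noncomputable def dd : ℝ := √(4 - t2 ^ 2)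
/-- Its conjugate on the unit circle. -/
noncomputable def aa : ℂ := ⟨t2 / 2, dd / 2⟩

lemma s13_sq : s13 ^ 2 = 13 := by unfold s13; exact Real.sq_sqrt (by norm_num)
lemma s13_gt : 3.605 < s13 := by unfold s13; exact Real.lt_sqrt_of_sq_lt (by norm_num)
lemma s13_lt : s13 < 3.606 := by
  unfold s13; rw [Real.sqrt_lt' (by norm_num)]; norm_num
lemma t1_sq : t1 ^ 2 = t1 + 3 := by unfold t1; nlinarith [s13_sq]
lemma t2_sq : t2 ^ 2 = t2 + 3 := by unfold t2; nlinarith [s13_sq]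
lemma t1_sub : t1 - t2 = s13 := by unfold t1 t2; ring
lemma t1_add : t1 + t2 = 1 := by unfold t1 t2; ring
lemma t1_mul : t1 * t2 = -3 := by unfold t1 t2; nlinarith [s13_sq]
lemma t1_gt : 2.3025 < t1 := by unfold t1; linarith [s13_gt]
lemma t1_lt : t1 < 2.303 := by unfold t1; linarith [s13_lt]

lemma bb_sq : bb ^ 2 = t1 * bb - 1 := by
  unfold bb
  have h : √(t1 ^ 2 - 4) ^ 2 = t1 ^ 2 - 4 := Real.sq_sqrt (by nlinarith [t1_gt])
  nlinarith

lemma bb_gt : 1.72 < bb := by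
  unfold bb
  have : 1.14 < √(t1 ^ 2 - 4) := Real.lt_sqrt_of_sq_lt (by nlinarith [t1_gt])
  linarith [t1_gt]

lemma bb_lt : bb < 1.723 := by
  unfold bb
  have : √(t1 ^ 2 - 4) < 1.142 := by
    rw [Real.sqrt_lt' (by norm_num)]; nlinarith [t1_lt, t1_gt]
  linarith [t1_lt]

lemma bb_pos : 0 < bb := by linarith [bb_gt]
lemma one_lt_bb : 1 < bb := by linarith [bb_gt]
lemma bb_add_inv : bb + bb⁻¹ = t1 := by
  have := bb_pos
  field_simp
  nlinarith [bb_sq]

lemma dd_sq : dd ^ 2 = 4 - t2 ^ 2 := by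
  unfold dd; exact Real.sq_sqrt (by nlinarith [t2_sq, t1_add, t1_gt, t1_lt])
lemma dd_gt : 1.517 < dd := by
  unfold dd; exact Real.lt_sqrt_of_sq_lt (by nlinarith [t2_sq, t1_add, t1_gt, t1_lt])

lemma norm_aa : ‖aa‖ = 1 := by
  have : ‖aa‖ ^ 2 = 1 := by
    rw [Complex.sq_norm, Complex.normSq_apply]
    unfold aa
    simp only
    nlinarith [dd_sq]
  nlinarith [norm_nonneg aa]

lemma aa_ne : aa ≠ 0 := by
  intro h
  have := norm_aa
  rw [h] at this
  simp at this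

lemma aa_sq : aa ^ 2 = t2 * aa - 1 := by
  apply Complex.ext
  · simp [aa, pow_two]; nlinarith [dd_sq]
  · simp [aa, pow_two]; ring

lemma norm_aa_zpow (k : ℤ) : ‖aa ^ k‖ = 1 := by rw [norm_zpow, norm_aa, one_zpow]

lemma norm_aa_inv_sub_one : 1 ≤ ‖aa⁻¹ - 1‖ := by
  have h : aa⁻¹ - 1 = aa⁻¹ * (1 - aa) := by field_simp [aa_ne]
  rw [h, norm_mul, norm_inv, norm_aa, inv_one, one_mul]
  have := Complex.abs_re_le_norm (1 - aa)
  have h2 : (1 - aa).re = 1 - t2 / 2 := by simp [aa]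
  rw [h2] at this
  have h3 := le_abs_self (1 - t2 / 2)
  linarith [t1_add, t1_gt]

/-- Points of the dual lattice, described by the integrality of all traces. -/
def Dual (y : ℝ) (z : ℂ) (w : ℝ) : Prop :=
  ∀ k : ℤ, ∃ n : ℤ, bb ^ k * y + 2 * (aa ^ k * z).re + bb ^ (-k) * w = n

lemma Dual.step {y : ℝ} {z : ℂ} {w : ℝ} (h : Dual y z w) (J : ℕ) :
    Dual (y * (1 - bb ^ (-(J : ℤ)))) (z * (1 - aa ^ (-(J : ℤ)))) (w * (1 - bb ^ (J : ℤ))) := by
  intro k
  obtain ⟨n1, h1⟩ := h k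
  obtain ⟨n2, h2⟩ := h (k - J)
  refine ⟨n1 - n2, ?_⟩
  push_cast
  rw [← h1, ← h2]
  have e1 : bb ^ (k - J) = bb ^ k * bb ^ (-(J : ℤ)) := by
    rw [← zpow_add₀ bb_pos.ne']; congr 1
  have e2 : aa ^ (k - J) = aa ^ k * aa ^ (-(J : ℤ)) := by
    rw [← zpow_add₀ aa_ne]; congr 1
  have e3 : bb ^ (-(k - J)) = bb ^ (-k) * bb ^ (J : ℤ) := by
    rw [← zpow_add₀ bb_pos.ne']; congr 1; ring
  rw [e1, e2, e3]
  have e4 : aa ^ k * (z * (1 - aa ^ (-(J : ℤ)))) = aa ^ k * z - aa ^ k * aa ^ (-(J : ℤ)) * z := by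
    ring
  rw [e4, Complex.sub_re]
  ring

noncomputable def ys : ℝ := 1 / ((bb - bb⁻¹) * s13)
noncomputable def zs : ℂ := Complex.I / ((dd * s13 : ℝ) : ℂ)

lemma bb_inv_lt : bb⁻¹ < 0.5814 := by
  rw [inv_lt_comm₀ bb_pos (by norm_num)]
  linarith [bb_gt, show (0.5814 : ℝ)⁻¹ < 1.72 by norm_num]

lemma bb_inv_gt : 0.58 < bb⁻¹ := by
  rw [lt_inv_comm₀ (by norm_num) bb_pos]
  linarith [bb_lt, show (1.723 : ℝ) < (0.58 : ℝ)⁻¹ by norm_num]

lemma ys_pos : 0 < ys := by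
  unfold ys
  have : 0 < bb - bb⁻¹ := by linarith [bb_gt, bb_inv_lt]
  have := s13_gt
  positivity

lemma ys_lt : ys < 0.244 := by
  unfold ys
  have h1 : 1.138 < bb - bb⁻¹ := by linarith [bb_gt, bb_inv_lt]
  have := s13_gt
  rw [div_lt_iff₀ (by positivity)]
  nlinarith

lemma ys_gt : 0.24 < ys := by
  unfold ys
  have h1 : bb - bb⁻¹ < 1.143 := by linarith [bb_lt, bb_inv_gt]
  have h0 : 0 < bb - bb⁻¹ := by linarith [bb_gt, bb_inv_lt]
  have := s13_gt
  have := s13_lt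
  rw [lt_div_iff₀ (by positivity)]
  nlinarith

lemma norm_zs_lt : ‖zs‖ < 0.183 := by
  unfold zs
  have h1 := dd_gt
  have h2 := s13_gt
  rw [norm_div, Complex.norm_I, Complex.norm_real, Real.norm_eq_abs, abs_of_pos (by positivity),
    div_lt_iff₀ (by positivity)]
  nlinarith

lemma dual_base : Dual ys zs (-ys) := by
  have hs : s13 ≠ 0 := by linarith [s13_gt]
  have hd : dd ≠ 0 := by linarith [dd_gt]
  have hb : bb - bb⁻¹ ≠ 0 := by linarith [bb_gt, bb_inv_lt]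
  have hb0 := bb_pos.ne'
  set U : ℤ → ℝ := fun k => s13 * (bb ^ k * ys + bb ^ (-k) * (-ys)) with hU
  set V : ℤ → ℝ := fun k => s13 * (2 * (aa ^ k * zs).re) with hV
  have recU : ∀ k, U (k + 1 + 1) = t1 * U (k + 1) - U k := by
    intro k
    simp only [hU]
    rw [show -(k + 1 + 1) = -k - 1 - 1 by ring, show -(k + 1) = -k - 1 by ring,
      zpow_add_one₀ hb0, zpow_add_one₀ hb0, zpow_sub_one₀ hb0, zpow_sub_one₀ hb0, ← bb_add_inv]
    field_simp
    ring
  have recV : ∀ k, V (k + 1 + 1) = t2 * V (k + 1) - V k := by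
    intro k
    simp only [hV]
    rw [zpow_add_one₀ aa_ne, zpow_add_one₀ aa_ne]
    have : aa ^ k * aa * aa * zs = (t2 : ℂ) * (aa ^ k * aa * zs) - aa ^ k * zs := by
      linear_combination (aa ^ k * zs) * aa_sq
    rw [this, Complex.sub_re, Complex.re_ofReal_mul]
    ring
  let P : ℤ → Prop := fun k => ∃ a b : ℤ, U k = a + b * t1 ∧ V k = -(a + b * t2)
  have zre : zs.re = 0 := by simp [zs, Complex.div_re]
  have zim : zs.im = 1 / (dd * s13) := by
    unfold zs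
    rw [Complex.div_ofReal_im]
    simp
  have P0 : P 0 := ⟨0, 0, by simp [hU], by simp [hV, zre]⟩
  have P1 : P 1 := by
    refine ⟨1, 0, ?_, ?_⟩
    · simp only [hU, ys, zpow_one, zpow_neg]
      have : s13 * (bb * (1 / ((bb - bb⁻¹) * s13)) + bb⁻¹ * -(1 / ((bb - bb⁻¹) * s13))) =
          (bb - bb⁻¹) * s13 * (1 / ((bb - bb⁻¹) * s13)) := by ring
      rw [this, mul_one_div_cancel (mul_ne_zero hb hs)]
      simp
    · simp only [hV, zpow_one, Complex.mul_re, zre, zim]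
      simp only [aa]
      field_simp
      simp
  have hP : ∀ k, P k ∧ P (k + 1) := by
    intro k
    induction k using Int.induction_on with
    | zero => exact ⟨P0, by simpa using P1⟩
    | succ k ih =>
      obtain ⟨⟨a, b, h1, h2⟩, ⟨a', b', h3, h4⟩⟩ := ih
      refine ⟨⟨a', b', h3, h4⟩, 3 * b' - a, a' + b' - b, ?_, ?_⟩
      · rw [recU, h1, h3]; push_cast; linear_combination (b' : ℝ) * t1_sq
      · rw [recV, h2, h4]; push_cast; linear_combination -(b' : ℝ) * t2_sq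
    | pred k ih =>
      obtain ⟨⟨a, b, h1, h2⟩, ⟨a', b', h3, h4⟩⟩ := ih
      have e1 : -(k : ℤ) - 1 + 1 = -k := by ring
      refine ⟨⟨3 * b - a', a + b - b', ?_, ?_⟩, by rw [e1]; exact ⟨a, b, h1, h2⟩⟩
      · have := recU (-(k : ℤ) - 1)
        rw [e1, h1, h3] at this
        push_cast
        linear_combination this + (b : ℝ) * t1_sq
      · have := recV (-(k : ℤ) - 1)
        rw [e1, h2, h4] at this
        push_cast
        linear_combination this - (b : ℝ) * t2_sq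
  intro k
  obtain ⟨a, b, h1, h2⟩ := (hP k).1
  refine ⟨b, ?_⟩
  apply mul_left_cancel₀ hs
  simp only [hU, hV] at h1 h2
  linear_combination h1 + h2 + (b : ℝ) * t1_sub

open Polynomial in
/-- The minimal polynomial. -/
noncomputable def PZ : ℤ[X] := X ^ 4 - X ^ 3 - X ^ 2 - X + 1

open Polynomial in
lemma PZ_monic : PZ.Monic := by
  unfold PZ
  monicity!

open Polynomial in
lemma PZ_irr : Irreducible PZ := by
  have : Fact (Nat.Prime 2) := ⟨Nat.prime_two⟩
  have : Fact (Nat.Prime 5) := ⟨by norm_num⟩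
  apply Monic.irreducible_of_irreducible_map (Int.castRingHom (ZMod 2)) PZ PZ_monic
  have h : PZ.map (Int.castRingHom (ZMod 2)) = cyclotomic 5 (ZMod 2) := by
    rw [cyclotomic_prime]
    unfold PZ
    simp only [Polynomial.map_add, Polynomial.map_sub, Polynomial.map_pow, map_X,
      Polynomial.map_one, Finset.sum_range_succ, Finset.range_zero, Finset.sum_empty]
    have h2 : (2 : (ZMod 2)[X]) = 0 := CharTwo.two_eq_zero
    linear_combination -(X ^ 3 + X ^ 2 + X : (ZMod 2)[X]) * h2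
  rw [h]
  apply ZMod.irreducible_of_dvd_cyclotomic_of_natDegree (n := 5) (by norm_num) dvd_rfl
  rw [natDegree_cyclotomic, Nat.totient_prime (by norm_num)]
  symm
  rw [← orderOf_units, ZMod.coe_unitOfCoprime, orderOf_eq_iff (by norm_num)]
  constructor
  · decide
  · intro m hm hm0
    interval_cases m <;> decide

lemma quartic_factor (x : ℂ) : x ^ 4 - x ^ 3 - x ^ 2 - x + 1 =
    (x - bb) * (x - (bb⁻¹ : ℝ)) * ((x - aa) * (x - (starRingEnd ℂ) aa)) := by
  have h1 : (bb : ℂ) + ((bb⁻¹ : ℝ) : ℂ) = t1 := by exact_mod_cast bb_add_inv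
  have h2 : (bb : ℂ) * ((bb⁻¹ : ℝ) : ℂ) = 1 := by exact_mod_cast mul_inv_cancel₀ bb_pos.ne'
  have h3 : aa + (starRingEnd ℂ) aa = t2 := by
    rw [Complex.add_conj]; simp [aa]; ring
  have h4 : aa * (starRingEnd ℂ) aa = 1 := by
    rw [Complex.mul_conj, Complex.normSq_eq_norm_sq, norm_aa]; simp
  have h5 : (t1 : ℂ) + t2 = 1 := by exact_mod_cast t1_add
  have h6 : (t1 : ℂ) * t2 = -3 := by exact_mod_cast t1_mul
  have e1 : (x - bb) * (x - (bb⁻¹ : ℝ)) = x ^ 2 - t1 * x + 1 := by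
    linear_combination -x * h1 + h2
  have e2 : (x - aa) * (x - (starRingEnd ℂ) aa) = x ^ 2 - t2 * x + 1 := by
    linear_combination -x * h3 + h4
  rw [e1, e2]
  linear_combination (x ^ 3 + x) * h5 - x ^ 2 * h6

lemma bb_quartic : bb ^ 4 - bb ^ 3 - bb ^ 2 - bb + 1 = 0 := by
  have := quartic_factor bb
  rw [sub_self, zero_mul, zero_mul] at this
  exact_mod_cast this

lemma bbinv_quartic : bb⁻¹ ^ 4 - bb⁻¹ ^ 3 - bb⁻¹ ^ 2 - bb⁻¹ + 1 = 0 := by
  have := quartic_factor ((bb⁻¹ : ℝ) : ℂ)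
  rw [sub_self, mul_zero, zero_mul] at this
  exact_mod_cast this

lemma aa_quartic : aa ^ 4 - aa ^ 3 - aa ^ 2 - aa + 1 = 0 := by
  rw [quartic_factor, sub_self, zero_mul, mul_zero]

open Polynomial in
lemma salem_bb : IsIntegral ℤ bb ∧ 1 < bb ∧
    (∀ z ∈ (minpoly ℚ bb).aroots ℂ, z ≠ ((bb : ℝ) : ℂ) → ‖z‖ ≤ 1) ∧
    (∃ z ∈ (minpoly ℚ bb).aroots ℂ, ‖z‖ = 1) := by
  have hirr : Irreducible (PZ.map (algebraMap ℤ ℚ)) :=
    (PZ_monic.irreducible_iff_irreducible_map_fraction_map).mp PZ_irr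
  have hev : ∀ {A : Type} [CommRing A] [Algebra ℚ A] (x : A),
      aeval x (PZ.map (algebraMap ℤ ℚ)) = x ^ 4 - x ^ 3 - x ^ 2 - x + 1 := by
    intro A _ _ x
    simp [PZ]
  have hmin : PZ.map (algebraMap ℤ ℚ) = minpoly ℚ bb :=
    minpoly.eq_of_irreducible_of_monic hirr (by rw [hev]; exact bb_quartic) (PZ_monic.map _)
  refine ⟨⟨PZ, PZ_monic, ?_⟩, one_lt_bb, ?_, aa, ?_, norm_aa⟩
  · rw [← aeval_def]
    simpa [PZ] using bb_quartic
  · intro z hz hne
    rw [← hmin, mem_aroots, hev, quartic_factor] at hz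
    rcases mul_eq_zero.mp hz.2 with h | h
    · rcases mul_eq_zero.mp h with h | h
      · exact absurd (sub_eq_zero.mp h) hne
      · rw [sub_eq_zero.mp h, Complex.norm_real, Real.norm_eq_abs,
          abs_of_pos (inv_pos.mpr bb_pos)]
        linarith [bb_inv_lt]
    · rcases mul_eq_zero.mp h with h | h
      · rw [sub_eq_zero.mp h, norm_aa]
      · rw [sub_eq_zero.mp h, Complex.norm_conj, norm_aa]
  · rw [← hmin, mem_aroots, hev]
    exact ⟨hirr.ne_zero, aa_quartic⟩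

end Pool.Agent.Lib.MP_e840b2_an
end

-- part Pool.Agent.Lib.MP_e840b2_an.Riesz
section

/-! The exponential `ee x = exp (2 pi i x)`, elementary estimates and Riesz products. -/

set_option autoImplicit false
open Finset Real

namespace Pool.Agent.Lib.MP_e840b2_an

/-- The additive character `exp (2 pi i x)`. -/
noncomputable def ee (x : ℝ) : ℂ := Complex.exp (((2 * π * x : ℝ) : ℂ) * Complex.I)

lemma ee_add (x y : ℝ) : ee (x + y) = ee x * ee y := by
  unfold ee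
  rw [← Complex.exp_add]
  congr 1
  push_cast
  ring

lemma ee_zero : ee 0 = 1 := by simp [ee]

lemma norm_ee (x : ℝ) : ‖ee x‖ = 1 := by
  unfold ee
  exact Complex.norm_exp_ofReal_mul_I _

lemma ee_int (n : ℤ) : ee n = 1 := by
  unfold ee
  rw [← Complex.exp_int_mul_two_pi_mul_I n]
  congr 1
  push_cast
  ring

lemma ee_re (x : ℝ) : (ee x).re = cos (2 * π * x) := by
  unfold ee
  exact Complex.exp_ofReal_mul_I_re _

lemma ee_im (x : ℝ) : (ee x).im = sin (2 * π * x) := by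
  unfold ee
  exact Complex.exp_ofReal_mul_I_im _

lemma conj_ee (x : ℝ) : (starRingEnd ℂ) (ee x) = ee (-x) := by
  apply Complex.ext
  · simp [ee_re]
  · simp [ee_im]

lemma ee_sum {ι : Type*} (s : Finset ι) (f : ι → ℝ) : ee (∑ i ∈ s, f i) = ∏ i ∈ s, ee (f i) := by
  classical
  induction s using Finset.induction_on with
  | empty => simp [ee_zero]
  | insert a s ha ih => rw [sum_insert ha, prod_insert ha, ee_add, ih]

lemma ee_nat_mul (n : ℕ) (x : ℝ) : ee (x * n) = ee x ^ n := by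
  induction n with
  | zero => simp [ee_zero]
  | succ n ih => rw [pow_succ, ← ih, ← ee_add]; congr 1; push_cast; ring

lemma norm_ee_sub_one (x : ℝ) : ‖ee x - 1‖ = 2 * |sin (π * x)| := by
  unfold ee
  rw [mul_comm _ Complex.I, Complex.norm_exp_I_mul_ofReal_sub_one]
  rw [Real.norm_eq_abs, abs_mul, abs_two]
  congr 3
  ring

lemma norm_ee_sub_one_le (x : ℝ) : ‖ee x - 1‖ ≤ 2 * π * |x| := by
  rw [norm_ee_sub_one]
  have := Real.abs_sin_le_abs (x := π * x)
  rw [abs_mul, abs_of_pos pi_pos] at this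
  linarith

lemma norm_ee_sub_le (x y : ℝ) : ‖ee x - ee y‖ ≤ 2 * π * |x - y| := by
  have : ee x - ee y = ee y * (ee (x - y) - 1) := by
    rw [mul_sub, ← ee_add]; simp
  rw [this, norm_mul, norm_ee, one_mul]
  exact norm_ee_sub_one_le _

lemma le_norm_ee_sub_one (x : ℝ) (hx : |x| ≤ 1 / 2) : 4 * |x| ≤ ‖ee x - 1‖ := by
  rw [norm_ee_sub_one]
  have h1 : |π * x| ≤ π / 2 := by
    rw [abs_mul, abs_of_pos pi_pos]
    nlinarith [pi_pos]
  have h2 := Real.mul_abs_le_abs_sin h1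
  rw [abs_mul, abs_of_pos pi_pos] at h2
  have : 2 / π * (π * |x|) = 2 * |x| := by field_simp
  linarith

lemma norm_one_add_ee (x : ℝ) : ‖(1 + ee x) / 2‖ = |cos (π * x)| := by
  have h : (1 + ee x) / 2 = ee (x / 2) * ((cos (π * x) : ℝ) : ℂ) := by
    have h1 : ee x = ee (x / 2) * ee (x / 2) := by rw [← ee_add]; congr 1; ring
    have h2 : (1 : ℂ) = ee (x / 2) * ee (-(x / 2)) := by rw [← ee_add]; simp [ee_zero]
    have h3 : ee (x / 2) + ee (-(x / 2)) = 2 * ((cos (π * x) : ℝ) : ℂ) := by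
      rw [← conj_ee, Complex.add_conj, ee_re]
      push_cast
      congr 2
      ring
    rw [h1]
    nth_rewrite 1 [h2]
    linear_combination (ee (x / 2) / 2) * h3
  rw [h, norm_mul, norm_ee, one_mul, Complex.norm_real, Real.norm_eq_abs]

lemma norm_geom_le (ζ : ℂ) (h1 : ‖ζ‖ = 1) (M : ℕ) : ‖∑ i ∈ range M, ζ ^ i‖ * ‖ζ - 1‖ ≤ 2 := by
  rw [← norm_mul, geom_sum_mul]
  calc ‖ζ ^ M - 1‖ ≤ ‖ζ ^ M‖ + ‖(1 : ℂ)‖ := norm_sub_le _ _
    _ = 2 := by rw [norm_pow, h1]; norm_num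

lemma norm_sum_ee_le (F : ℝ) (n0 : ℝ) (M : ℕ) (μ : ℝ) (hμ : 0 < μ) (h1 : μ ≤ |F|)
    (h2 : |F| ≤ 1 / 2) : ‖∑ i ∈ range M, ee (F * (n0 + i))‖ ≤ 1 / (2 * μ) := by
  have : ∑ i ∈ range M, ee (F * (n0 + i)) = ee (F * n0) * ∑ i ∈ range M, ee F ^ i := by
    rw [mul_sum]
    apply sum_congr rfl
    intro i _
    rw [mul_add, ee_add, ee_nat_mul]
  rw [this, norm_mul, norm_ee, one_mul]
  have h3 := norm_geom_le (ee F) (norm_ee F) M
  have h4 := le_norm_ee_sub_one F h2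
  rw [le_div_iff₀ (by positivity)]
  have h5 := norm_nonneg (∑ i ∈ range M, ee F ^ i)
  nlinarith [mul_le_mul_of_nonneg_left (show 4 * μ ≤ ‖ee F - 1‖ by linarith) h5]

/-- One factor of a Riesz product. -/
noncomputable def rf (lam : ℝ) (u : ℂ) (f x : ℝ) : ℝ := 1 + lam * (u * ee (f * x)).re

/-- Twisted sums of Riesz products. -/
noncomputable def RS (lam : ℝ) (u : ℕ → ℂ) (f : ℕ → ℝ) (n0 : ℝ) (M : ℕ) (J : ℕ) (F : ℝ) : ℂ :=
  ∑ i ∈ range M, ee (F * (n0 + i)) * ∏ j ∈ range J, ((rf lam (u j) (f j) (n0 + i) : ℝ) : ℂ)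

lemma RS_succ (lam : ℝ) (u : ℕ → ℂ) (f : ℕ → ℝ) (n0 : ℝ) (M J : ℕ) (F : ℝ) :
    RS lam u f n0 M (J + 1) F = RS lam u f n0 M J F +
      (lam / 2 : ℂ) * u J * RS lam u f n0 M J (F + f J) +
      (lam / 2 : ℂ) * (starRingEnd ℂ) (u J) * RS lam u f n0 M J (F - f J) := by
  unfold RS
  rw [mul_sum, mul_sum, ← sum_add_distrib, ← sum_add_distrib]
  apply sum_congr rfl
  intro i _
  rw [prod_range_succ]
  have h1 : ((rf lam (u J) (f J) (n0 + i) : ℝ) : ℂ) = 1 + (lam / 2 : ℂ) *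
      (u J * ee (f J * (n0 + i)) + (starRingEnd ℂ) (u J) * ee (-(f J * (n0 + i)))) := by
    unfold rf
    rw [← conj_ee, ← map_mul, Complex.add_conj]
    push_cast
    ring
  have h2 : ee ((F + f J) * (n0 + i)) = ee (F * (n0 + i)) * ee (f J * (n0 + i)) := by
    rw [← ee_add]; congr 1; ring
  have h3 : ee ((F - f J) * (n0 + i)) = ee (F * (n0 + i)) * ee (-(f J * (n0 + i))) := by
    rw [← ee_add]; congr 1; ring
  rw [h1, h2, h3]
  ring

lemma RS_bound (lam : ℝ) (hlam : 0 ≤ lam) (u : ℕ → ℂ) (hu : ∀ j, ‖u j‖ ≤ 1) (f : ℕ → ℝ)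
    (n0 : ℝ) (M : ℕ) (μ : ℝ) (hμ : 0 < μ) (J : ℕ) :
    ∀ F : ℝ, μ + ∑ j ∈ range J, |f j| ≤ |F| → |F| + ∑ j ∈ range J, |f j| ≤ 1 / 2 →
      ‖RS lam u f n0 M J F‖ ≤ (1 + lam) ^ J / (2 * μ) := by
  induction J with
  | zero =>
    intro F h1 h2
    simp only [range_zero, sum_empty, add_zero] at h1 h2
    unfold RS
    simp only [range_zero, prod_empty, mul_one, pow_zero]
    exact norm_sum_ee_le F n0 M μ hμ h1 h2
  | succ J ih =>
    intro F h1 h2
    rw [sum_range_succ] at h1 h2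
    have hf := abs_nonneg (f J)
    have a1 := ih F (by linarith) (by linarith)
    have b1 : |F| - |f J| ≤ |F + f J| := by
      have := abs_sub (F + f J) (f J)
      simp only [add_sub_cancel_right] at this
      linarith
    have b2 : |F| - |f J| ≤ |F - f J| := abs_sub_abs_le_abs_sub _ _
    have a2 := ih (F + f J) (by linarith) (by linarith [abs_add_le F (f J)])
    have a3 := ih (F - f J) (by linarith) (by linarith [abs_sub F (f J)])
    rw [RS_succ]
    have hl : ‖(lam / 2 : ℂ)‖ = lam / 2 := by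
      rw [norm_div, Complex.norm_real, Real.norm_eq_abs, abs_of_nonneg hlam]; simp
    have c2 : ‖(lam / 2 : ℂ) * u J * RS lam u f n0 M J (F + f J)‖ ≤
        lam / 2 * ((1 + lam) ^ J / (2 * μ)) := by
      rw [norm_mul, norm_mul, hl]
      have := mul_le_mul (hu J) a2 (norm_nonneg _) zero_le_one
      nlinarith
    have c3 : ‖(lam / 2 : ℂ) * (starRingEnd ℂ) (u J) * RS lam u f n0 M J (F - f J)‖ ≤
        lam / 2 * ((1 + lam) ^ J / (2 * μ)) := by
      rw [norm_mul, norm_mul, hl, Complex.norm_conj]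
      have := mul_le_mul (hu J) a3 (norm_nonneg _) zero_le_one
      nlinarith
    calc _ ≤ _ := norm_add₃_le
      _ ≤ (1 + lam) ^ J / (2 * μ) + lam / 2 * ((1 + lam) ^ J / (2 * μ)) +
          lam / 2 * ((1 + lam) ^ J / (2 * μ)) := by linarith
      _ = (1 + lam) ^ (J + 1) / (2 * μ) := by ring

lemma RS_zero_bound (lam : ℝ) (hlam : 0 ≤ lam) (hlam2 : lam ≤ 1 / 2) (u : ℕ → ℂ)
    (hu : ∀ j, ‖u j‖ ≤ 1) (f : ℕ → ℝ) (n0 : ℝ) (M : ℕ) (hf0 : 0 < |f 0|)
    (hf : ∀ j, 5 * |f j| ≤ |f (j + 1)|) (J : ℕ) (hJ : ∀ j < J, |f j| ≤ 2 / 5) :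
    ‖RS lam u f n0 M J 0‖ ≤ M + (1 - (1 / 2) ^ J) / |f 0| := by
  have hσ : ∀ j, ∑ i ∈ range j, |f i| ≤ |f j| / 4 := by
    intro j
    induction j with
    | zero => simp; positivity
    | succ j ih => rw [sum_range_succ]; linarith [hf j]
  have hg : ∀ j, 5 ^ j * |f 0| ≤ |f j| := by
    intro j
    induction j with
    | zero => simp
    | succ j ih => rw [pow_succ]; linarith [hf j]
  induction J with
  | zero =>
    unfold RS
    simp [ee_zero]
  | succ J ih =>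
    have ih' := ih (fun j hj => hJ j (by omega))
    have hfJ : 0 < |f J| := lt_of_lt_of_le (by positivity) (hg J)
    have a2 := RS_bound lam hlam u hu f n0 M (3 / 4 * |f J|) (by positivity) J (0 + f J)
      (by rw [zero_add]; linarith [hσ J]) (by rw [zero_add]; linarith [hσ J, hJ J (by omega)])
    have a3 := RS_bound lam hlam u hu f n0 M (3 / 4 * |f J|) (by positivity) J (0 - f J)
      (by rw [zero_sub, abs_neg]; linarith [hσ J])
      (by rw [zero_sub, abs_neg]; linarith [hσ J, hJ J (by omega)])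
    rw [RS_succ]
    have hl : ‖(lam / 2 : ℂ)‖ = lam / 2 := by
      rw [norm_div, Complex.norm_real, Real.norm_eq_abs, abs_of_nonneg hlam]; simp
    have hb : (1 + lam) ^ J / (2 * (3 / 4 * |f J|)) ≤ (1 / 2) ^ J / |f 0| := by
      rw [div_le_div_iff₀ (by positivity) hf0]
      have h1 : (1 + lam) ^ J ≤ (5 / 2 : ℝ) ^ J := pow_le_pow_left₀ (by linarith) (by linarith) J
      have h2 : (5 / 2 : ℝ) ^ J = (1 / 2) ^ J * 5 ^ J := by rw [← mul_pow]; norm_num
      have h3 : (0 : ℝ) < (1 / 2) ^ J := by positivity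
      calc (1 + lam) ^ J * |f 0| ≤ (1 / 2) ^ J * 5 ^ J * |f 0| := by
            rw [← h2]; exact mul_le_mul_of_nonneg_right h1 hf0.le
        _ = (1 / 2) ^ J * (5 ^ J * |f 0|) := by ring
        _ ≤ (1 / 2) ^ J * |f J| := mul_le_mul_of_nonneg_left (hg J) h3.le
        _ ≤ (1 / 2) ^ J * (2 * (3 / 4 * |f J|)) := by
            apply mul_le_mul_of_nonneg_left _ h3.le
            linarith
    have hq : (0 : ℝ) ≤ (1 / 2) ^ J / |f 0| := by positivity
    have c2 : ‖(lam / 2 : ℂ) * u J * RS lam u f n0 M J (0 + f J)‖ ≤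
        1 / 4 * ((1 / 2) ^ J / |f 0|) := by
      rw [norm_mul, norm_mul, hl]
      have := mul_le_mul (hu J) (a2.trans hb) (norm_nonneg _) zero_le_one
      have h0 := mul_nonneg (norm_nonneg (u J)) (norm_nonneg (RS lam u f n0 M J (0 + f J)))
      nlinarith
    have c3 : ‖(lam / 2 : ℂ) * (starRingEnd ℂ) (u J) * RS lam u f n0 M J (0 - f J)‖ ≤
        1 / 4 * ((1 / 2) ^ J / |f 0|) := by
      rw [norm_mul, norm_mul, hl, Complex.norm_conj]
      have := mul_le_mul (hu J) (a3.trans hb) (norm_nonneg _) zero_le_one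
      have h0 := mul_nonneg (norm_nonneg (u J)) (norm_nonneg (RS lam u f n0 M J (0 - f J)))
      nlinarith
    calc _ ≤ _ := norm_add₃_le
      _ ≤ M + (1 - (1 / 2) ^ J) / |f 0| + 1 / 4 * ((1 / 2) ^ J / |f 0|) +
          1 / 4 * ((1 / 2) ^ J / |f 0|) := by linarith
      _ = M + (1 - (1 / 2) ^ (J + 1)) / |f 0| := by ring

/-- The normalising constant of a lacunary Riesz product on an interval of integers. -/
lemma riesz_sum_le (lam : ℝ) (hlam : 0 ≤ lam) (hlam2 : lam ≤ 1 / 2) (u : ℕ → ℂ)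
    (hu : ∀ j, ‖u j‖ ≤ 1) (f : ℕ → ℝ) (n0 : ℝ) (M : ℕ) (hf0 : 0 < |f 0|)
    (hf : ∀ j, 5 * |f j| ≤ |f (j + 1)|) (J : ℕ) (hJ : ∀ j < J, |f j| ≤ 2 / 5) :
    ∑ i ∈ range M, ∏ j ∈ range J, rf lam (u j) (f j) (n0 + i) ≤ M + 1 / |f 0| := by
  have h := RS_zero_bound lam hlam hlam2 u hu f n0 M hf0 hf J hJ
  have h2 : RS lam u f n0 M J 0 =
      ((∑ i ∈ range M, ∏ j ∈ range J, rf lam (u j) (f j) (n0 + i) : ℝ) : ℂ) := by
    unfold RS
    push_cast
    simp [ee_zero]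
  rw [h2, Complex.norm_real, Real.norm_eq_abs] at h
  refine (le_abs_self _).trans (h.trans ?_)
  have : (1 - (1 / 2 : ℝ) ^ J) / |f 0| ≤ 1 / |f 0| := by
    apply div_le_div_of_nonneg_right _ hf0.le
    have : (0 : ℝ) ≤ (1 / 2) ^ J := by positivity
    linarith
  linarith

lemma abs_re_le (lam : ℝ) (hlam : 0 ≤ lam) (u : ℂ) (hu : ‖u‖ ≤ 1) (x : ℝ) :
    |lam * (u * ee x).re| ≤ lam := by
  rw [abs_mul, abs_of_nonneg hlam]
  have : |(u * ee x).re| ≤ 1 := by
    refine (Complex.abs_re_le_norm _).trans ?_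
    rw [norm_mul, norm_ee, mul_one]
    exact hu
  nlinarith

lemma rf_pos (lam : ℝ) (hlam : 0 ≤ lam) (hlam2 : lam ≤ 1 / 2) (u : ℂ) (hu : ‖u‖ ≤ 1) (f x : ℝ) :
    0 < rf lam u f x := by
  unfold rf
  have := abs_le.mp (abs_re_le lam hlam u hu (f * x))
  linarith [this.1]

lemma neg_log_one_add_le (t : ℝ) (ht : |t| ≤ 1 / 2) : -Real.log (1 + t) ≤ -t + 2 * t ^ 2 := by
  have h := abs_le.mp ht
  have h1 : 0 < 1 + t := by linarith [h.1]
  have h2 := Real.one_sub_inv_le_log_of_pos h1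
  have h3 : (1 + t)⁻¹ ≤ 1 - t + 2 * t ^ 2 := by
    rw [inv_le_comm₀ h1 (by nlinarith), ← one_div, div_le_iff₀ (by nlinarith)]
    nlinarith [sq_nonneg t, mul_nonneg (sq_nonneg t) (show 0 ≤ 1 + 2 * t by linarith [h.1])]
  linarith

lemma neg_log_rf_le (lam : ℝ) (hlam : 0 ≤ lam) (hlam2 : lam ≤ 1 / 2) (u : ℂ) (hu : ‖u‖ ≤ 1)
    (f x : ℝ) : -Real.log (rf lam u f x) ≤ -(lam * (u * ee (f * x)).re) + 2 * lam ^ 2 := by
  have h := abs_re_le lam hlam u hu (f * x)
  have h1 := neg_log_one_add_le (lam * (u * ee (f * x)).re) (h.trans hlam2)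
  have h2 : (lam * (u * ee (f * x)).re) ^ 2 ≤ lam ^ 2 := by
    rw [← sq_abs]
    exact pow_le_pow_left₀ (abs_nonneg _) h 2
  unfold rf
  linarith

end Pool.Agent.Lib.MP_e840b2_an
end

-- part Pool.Agent.Lib.MP_e840b2_an.Step
section

/-! Dual lattice points with tiny neutral coordinate and large Fourier coefficient: one step. -/

set_option autoImplicit false
open Finset Real

namespace Pool.Agent.Lib.MP_e840b2_an

/-- The modulus of one factor of the Fourier transform. -/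
noncomputable def cc (x : ℝ) : ℝ := |cos (π * x)|

lemma cc_nonneg (x : ℝ) : 0 ≤ cc x := abs_nonneg _
lemma cc_le_one (x : ℝ) : cc x ≤ 1 := abs_cos_le_one _

lemma cc_int_sub (n : ℤ) (x : ℝ) : cc (n - x) = cc x := by
  unfold cc
  rw [mul_sub, mul_comm π (n : ℝ), Real.cos_int_mul_pi_sub, abs_mul]
  simp

lemma cc_lip (a b : ℝ) : cc a - π * |b| ≤ cc (a + b) := by
  unfold cc
  have h1 := Real.abs_cos_sub_cos_le (π * a) (π * (a + b))
  have h2 := abs_sub_abs_le_abs_sub (cos (π * a)) (cos (π * (a + b)))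
  have h3 : |π * a - π * (a + b)| = π * |b| := by
    rw [show π * a - π * (a + b) = -(π * b) by ring, abs_neg, abs_mul, abs_of_pos pi_pos]
  linarith

lemma cc_ge_quad (r : ℝ) : 1 - 5 * r ^ 2 ≤ cc r := by
  unfold cc
  have h1 := Real.one_sub_sq_div_two_le_cos (x := π * r)
  have h2 : π ^ 2 ≤ 10 := by nlinarith [pi_lt_d2, pi_pos]
  have h3 := le_abs_self (cos (π * r))
  have h4 : (π * r) ^ 2 ≤ 10 * r ^ 2 := by
    rw [mul_pow]; exact mul_le_mul_of_nonneg_right h2 (sq_nonneg r)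
  linarith

lemma cos_ge_lin (x : ℝ) (hx : |x| ≤ 1 / 2) : 1 - 2 * |x| ≤ cos (π * x) := by
  have h1 := Real.one_sub_mul_le_cos (x := π * |x|) (by positivity) (by nlinarith [pi_pos])
  have h2 : cos (π * |x|) = cos (π * x) := by
    rw [← Real.cos_abs (π * x), abs_mul, abs_of_pos pi_pos]
  have h3 : 2 / π * (π * |x|) = 2 * |x| := by field_simp
  linarith

lemma cc_ge_lin (x : ℝ) (hx : |x| ≤ 1 / 2) : 1 - 2 * |x| ≤ cc x :=
  (cos_ge_lin x hx).trans (le_abs_self _)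

lemma exp_le_one_sub (x : ℝ) (h0 : 0 ≤ x) (h1 : x ≤ 1 / 2) : exp (-(2 * x)) ≤ 1 - x := by
  rw [Real.exp_neg, inv_le_comm₀ (exp_pos _) (by linarith)]
  have := Real.add_one_le_exp (2 * x)
  refine le_trans ?_ this
  rw [← one_div, div_le_iff₀ (by linarith)]
  nlinarith

lemma prod_pert {ι : Type*} (s : Finset ι) (f g x : ι → ℝ) (B : ℝ) (hg : ∀ i ∈ s, 0 ≤ g i)
    (hx0 : ∀ i ∈ s, 0 ≤ x i) (hx1 : ∀ i ∈ s, x i ≤ 1 / 2)
    (h : ∀ i ∈ s, g i * (1 - x i) ≤ f i) (hB : 2 * ∑ i ∈ s, x i ≤ B) :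
    (∏ i ∈ s, g i) * exp (-B) ≤ ∏ i ∈ s, f i := by
  calc (∏ i ∈ s, g i) * exp (-B) ≤ (∏ i ∈ s, g i) * exp (∑ i ∈ s, -(2 * x i)) := by
        apply mul_le_mul_of_nonneg_left _ (prod_nonneg hg)
        apply exp_le_exp.mpr
        rw [sum_neg_distrib, ← mul_sum]
        linarith
    _ = ∏ i ∈ s, (g i * exp (-(2 * x i))) := by rw [Real.exp_sum, prod_mul_distrib]
    _ ≤ ∏ i ∈ s, f i := by
        apply prod_le_prod
        · intro i hi
          exact mul_nonneg (hg i hi) (exp_pos _).le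
        · intro i hi
          exact (mul_le_mul_of_nonneg_left (exp_le_one_sub _ (hx0 i hi) (hx1 i hi))
            (hg i hi)).trans (h i hi)

lemma sum_geom_le {ι : Type*} (s : Finset ι) (g : ι → ℤ) (hinj : Set.InjOn g s)
    (h0 : ∀ k ∈ s, 0 ≤ g k) :
    ∑ k ∈ s, bb ^ (-g k) ≤ 2.4 := by
  have hr0 : 0 ≤ bb⁻¹ := (inv_pos.mpr bb_pos).le
  have hr1 : bb⁻¹ < 1 := by linarith [bb_inv_lt]
  have e1 : ∑ k ∈ s, bb ^ (-g k) = ∑ j ∈ s.image (fun k => (g k).toNat), bb⁻¹ ^ j := by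
    rw [sum_image]
    · apply sum_congr rfl
      intro k hk
      rw [inv_pow, ← zpow_natCast, Int.toNat_of_nonneg (h0 k hk), zpow_neg]
    · intro a ha b hb hab
      apply hinj ha hb
      have h1 := h0 a ha
      have h2 := h0 b hb
      simp only at hab
      omega
  rw [e1]
  refine (sum_le_hasSum _ (fun j _ => pow_nonneg hr0 j) (hasSum_geometric_of_lt_one hr0 hr1)).trans ?_
  rw [inv_le_comm₀ (by linarith) (by norm_num)]
  linarith [bb_inv_lt, show (2.4 : ℝ)⁻¹ ≤ 0.4186 by norm_num]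

lemma bb_zpow_pos (k : ℤ) : 0 < bb ^ k := zpow_pos bb_pos k

lemma bb_zpow_le {a b : ℤ} (h : a ≤ b) : bb ^ a ≤ bb ^ b := zpow_le_zpow_right₀ one_lt_bb.le h

lemma bb_zpow_le_one {a : ℤ} (h : a ≤ 0) : bb ^ a ≤ 1 := by
  simpa using bb_zpow_le h

lemma bb_zpow_add (a b : ℤ) : bb ^ (a + b) = bb ^ a * bb ^ b := zpow_add₀ bb_pos.ne' a b

lemma card_le_of_Ico (s : Finset ℤ) (a : ℤ) (T : ℕ) (h : ∀ k ∈ s, a ≤ k ∧ k < a + T) :
    (s.card : ℝ) ≤ T := by
  have : s ⊆ Ico a (a + T) := fun k hk => mem_Ico.mpr (h k hk)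
  have h2 := card_le_card this
  rw [Int.card_Ico] at h2
  have : (a + T - a).toNat = T := by omega
  rw [this] at h2
  exact_mod_cast h2

/-- The invariant carried along the doubling construction. -/
structure St (y : ℝ) (z : ℂ) (w : ℝ) (L : ℕ) (ε m W : ℝ) : Prop where
  dual : Dual y z w
  y_le : |y| ≤ 1 / 4
  y_ge : bb ^ (-(L : ℤ)) ≤ |y|
  z_le : ‖z‖ ≤ ε
  w_le : |w| ≤ bb ^ (L : ℤ) / 5
  marg : ∀ k : ℤ, m ≤ cc (bb ^ k * y)
  cost : ∀ s : Finset ℤ, (∀ k ∈ s, k < L) → W ≤ ∏ k ∈ s, cc (bb ^ k * y)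

lemma abs_re_le' (k : ℤ) (z : ℂ) : |2 * (aa ^ k * z).re| ≤ 2 * ‖z‖ := by
  rw [abs_mul, abs_two]
  have := Complex.abs_re_le_norm (aa ^ k * z)
  rw [norm_mul, norm_aa_zpow, one_mul] at this
  linarith

lemma St.rep {y : ℝ} {z : ℂ} {w : ℝ} {L : ℕ} {ε m W : ℝ} (h : St y z w L ε m W) (k : ℤ) :
    ∃ (n : ℤ) (r : ℝ), bb ^ k * y = n - r ∧ |r| ≤ 2 * ε + bb ^ (L - k) / 5 := by
  obtain ⟨n, hn⟩ := h.dual k
  refine ⟨n, 2 * (aa ^ k * z).re + bb ^ (-k) * w, by linarith, ?_⟩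
  refine (abs_add_le _ _).trans (add_le_add ((abs_re_le' k z).trans (by linarith [h.z_le])) ?_)
  rw [abs_mul, abs_of_pos (bb_zpow_pos _), show (L : ℤ) - k = -k + L by ring, bb_zpow_add,
    mul_div_assoc]
  exact mul_le_mul_of_nonneg_left h.w_le (bb_zpow_pos _).le

lemma St.ext {y : ℝ} {z : ℂ} {w : ℝ} {L : ℕ} {ε m W : ℝ} (h : St y z w L ε m W)
    (T : ℕ) (hε : ε ≤ 1 / 40) (hT : ε ^ 2 * T ≤ 1 / 100) (s : Finset ℤ)
    (hs : ∀ k ∈ s, k < L + T) : W * exp (-3) ≤ ∏ k ∈ s, cc (bb ^ k * y) := by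
  have hε0 : 0 ≤ ε := (norm_nonneg _).trans h.z_le
  rw [← prod_filter_mul_prod_filter_not s (fun k => k < (L : ℤ))]
  apply mul_le_mul (h.cost _ (fun k hk => (mem_filter.mp hk).2)) _ (exp_pos _).le
    (prod_nonneg fun k _ => cc_nonneg _)
  set s2 := s.filter (fun k => ¬ k < (L : ℤ)) with hs2
  have hm : ∀ k ∈ s2, (L : ℤ) ≤ k ∧ k < L + T := fun k hk =>
    ⟨not_lt.mp (mem_filter.mp hk).2, hs k (mem_filter.mp hk).1⟩
  have := prod_pert s2 (fun k => cc (bb ^ k * y)) (fun _ => 1)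
    (fun k => 40 * ε ^ 2 + 2 / 5 * bb ^ (-(k - L))) 3 (fun _ _ => zero_le_one)
    (fun k _ => by have := bb_zpow_pos (-(k - L)); positivity)
    (fun k hk => by
      have := bb_zpow_le_one (a := -(k - L)) (by linarith [(hm k hk).1])
      nlinarith)
    (fun k hk => by
      obtain ⟨n, r, h1, h2⟩ := h.rep k
      rw [h1, cc_int_sub, one_mul]
      refine le_trans ?_ (cc_ge_quad r)
      have h3 := bb_zpow_le_one (a := -(k - L)) (by linarith [(hm k hk).1])
      have h4 := bb_zpow_pos (-(k - L))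
      rw [show (L : ℤ) - k = -(k - L) by ring] at h2
      have h5 : r ^ 2 ≤ (2 * ε + bb ^ (-(k - L)) / 5) ^ 2 := by
        rw [← sq_abs]; exact pow_le_pow_left₀ (abs_nonneg _) h2 2
      nlinarith [sq_nonneg (2 * ε - bb ^ (-(k - L)) / 5)])
    (by
      rw [sum_add_distrib, sum_const, nsmul_eq_mul, ← mul_sum]
      have h1 := card_le_of_Ico s2 L T hm
      have h2 := sum_geom_le s2 (fun k => k - L) (fun a _ b _ hab => by simpa using hab)
        (fun k hk => by linarith [(hm k hk).1])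
      have h3 : (s2.card : ℝ) * ε ^ 2 ≤ T * ε ^ 2 := mul_le_mul_of_nonneg_right h1 (sq_nonneg ε)
      nlinarith)
  simpa using this

lemma St.step {y : ℝ} {z : ℂ} {w : ℝ} {L : ℕ} {ε m W : ℝ} (h : St y z w L ε m W) (hW : 0 ≤ W)
    (s0 J : ℕ) (hJ : L + 2 * s0 ≤ J) (hJ2 : 2 ≤ J) (hs : bb ^ (-(s0 : ℤ)) ≤ ε)
    (hε : ε ≤ 1 / 1000) (hT : ε ^ 2 * J ≤ 1 / 100) (hm : 1 / 20 ≤ m)
    (hL : ε * (L + s0) ≤ 10) (ε' : ℝ) (hε' : ε * ‖1 - aa ^ (-(J : ℤ))‖ ≤ ε') :
    St (y * (1 - bb ^ (-(J : ℤ)))) (z * (1 - aa ^ (-(J : ℤ)))) (w * (1 - bb ^ (J : ℤ))) (L + J)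
      ε' (m - 10 * ε) (W * W * exp (-3000)) := by
  have hε0 : 0 ≤ ε := (norm_nonneg _).trans h.z_le
  have hb1 : bb ^ (-(J : ℤ)) ≤ 1 / 2 := by
    refine (bb_zpow_le (b := -2) (by omega)).trans ?_
    rw [zpow_neg, zpow_ofNat, ← inv_pow]
    nlinarith [bb_inv_lt, bb_inv_gt]
  have hb0 := bb_zpow_pos (-(J : ℤ))
  have hsplit : ∀ k : ℤ, bb ^ k * (y * (1 - bb ^ (-(J : ℤ)))) =
      bb ^ k * y - bb ^ (k - J) * y := by
    intro k
    rw [sub_eq_add_neg k, bb_zpow_add]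
    ring
  have hpi : π ≤ 3.15 := pi_lt_d2.le
  -- left part
  have left : ∀ k : ℤ, k < J - s0 → cc (bb ^ k * y) - 0.8 * ε * bb ^ (-(J - s0 - k)) ≤
      cc (bb ^ k * (y * (1 - bb ^ (-(J : ℤ))))) := by
    intro k _
    rw [hsplit, sub_eq_add_neg (bb ^ k * y)]
    refine le_trans ?_ (cc_lip _ _)
    rw [abs_neg, abs_mul, abs_of_pos (bb_zpow_pos _),
      show k - (J : ℤ) = -(J - s0 - k) + -(s0 : ℤ) by ring, bb_zpow_add]
    have h1 := bb_zpow_pos (-((J : ℤ) - s0 - k))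
    have h2 := bb_zpow_pos (-(s0 : ℤ))
    have h3 : bb ^ (-(s0 : ℤ)) * |y| ≤ ε * (1 / 4) := mul_le_mul hs h.y_le (abs_nonneg _) hε0
    have h4 : π * (bb ^ (-(s0 : ℤ)) * |y|) ≤ 3.15 * (ε * (1 / 4)) :=
      mul_le_mul hpi h3 (by positivity) (by norm_num)
    nlinarith
  have right : ∀ k : ℤ, (J : ℤ) - s0 ≤ k → cc (bb ^ (k - J) * y) - 7 * ε ≤
      cc (bb ^ k * (y * (1 - bb ^ (-(J : ℤ))))) := by
    intro k hk
    obtain ⟨n, r, h1, h2⟩ := h.rep k
    rw [hsplit, h1, sub_sub, cc_int_sub, add_comm r]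
    refine le_trans ?_ (cc_lip _ _)
    have h3 : bb ^ ((L : ℤ) - k) ≤ ε := (bb_zpow_le (by omega)).trans hs
    have h4 : π * |r| ≤ 3.15 * (2.2 * ε) :=
      mul_le_mul hpi (by linarith) (abs_nonneg _) (by norm_num)
    linarith
  refine ⟨h.dual.step J, ?_, ?_, ?_, ?_, ?_, ?_⟩
  · rw [abs_mul, abs_of_pos (show 0 < 1 - bb ^ (-(J : ℤ)) by linarith)]
    nlinarith [h.y_le, abs_nonneg y]
  · rw [abs_mul, abs_of_pos (show 0 < 1 - bb ^ (-(J : ℤ)) by linarith)]
    push_cast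
    rw [neg_add, bb_zpow_add]
    exact mul_le_mul h.y_ge (by linarith) hb0.le (abs_nonneg _)
  · rw [norm_mul]
    exact (mul_le_mul_of_nonneg_right h.z_le (norm_nonneg _)).trans hε'
  · have h1 : (1 : ℝ) ≤ bb ^ (J : ℤ) := by simpa using bb_zpow_le (a := 0) (b := J) (by omega)
    rw [abs_mul, abs_sub_comm, abs_of_nonneg (show 0 ≤ bb ^ (J : ℤ) - 1 by linarith)]
    push_cast
    rw [bb_zpow_add]
    have := mul_le_mul h.w_le (show bb ^ (J : ℤ) - 1 ≤ bb ^ (J : ℤ) by linarith) (by linarith)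
      (by have := bb_zpow_pos (L : ℤ); positivity)
    linarith
  · intro k
    rcases lt_or_ge k ((J : ℤ) - s0) with hk | hk
    · have h1 := left k hk
      have h2 := h.marg k
      have h3 := bb_zpow_le_one (a := -((J : ℤ) - s0 - k)) (by omega)
      nlinarith
    · have h1 := right k hk
      have h2 := h.marg (k - J)
      linarith
  · intro s hs'
    rw [← prod_filter_mul_prod_filter_not s (fun k => k < (J : ℤ) - s0)]
    set s1 := s.filter (fun k => k < (J : ℤ) - s0) with hs1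
    set s2 := s.filter (fun k => ¬ k < (J : ℤ) - s0) with hs2
    have hm1 : ∀ k ∈ s1, k < (J : ℤ) - s0 := fun k hk => (mem_filter.mp hk).2
    have hm2 : ∀ k ∈ s2, (J : ℤ) - s0 ≤ k ∧ k < (J : ℤ) - s0 + (L + s0 : ℕ) := fun k hk =>
      ⟨not_lt.mp (mem_filter.mp hk).2, by
        have := hs' k (mem_filter.mp hk).1
        push_cast at this ⊢
        omega⟩
    have a1 := prod_pert s1 (fun k => cc (bb ^ k * (y * (1 - bb ^ (-(J : ℤ))))))
      (fun k => cc (bb ^ k * y)) (fun k => 16 * ε * bb ^ (-(J - s0 - k))) 1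
      (fun _ _ => cc_nonneg _)
      (fun k _ => by have := bb_zpow_pos (-((J : ℤ) - s0 - k)); positivity)
      (fun k hk => by
        have := bb_zpow_le_one (a := -((J : ℤ) - s0 - k)) (by linarith [hm1 k hk])
        nlinarith)
      (fun k hk => by
        refine le_trans ?_ (left k (hm1 k hk))
        have h2 := h.marg k
        have h3 : 0 ≤ ε * bb ^ (-((J : ℤ) - s0 - k)) :=
          mul_nonneg hε0 (bb_zpow_pos _).le
        nlinarith)
      (by
        rw [← mul_sum]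
        have h2 := sum_geom_le s1 (fun k => J - s0 - k) (fun a _ b _ hab => by simpa using hab)
          (fun k hk => by linarith [hm1 k hk])
        nlinarith)
    have a2 := prod_pert s2 (fun k => cc (bb ^ k * (y * (1 - bb ^ (-(J : ℤ))))))
      (fun k => cc (bb ^ (k - J) * y)) (fun _ => 140 * ε) 2800
      (fun _ _ => cc_nonneg _) (fun k _ => by positivity) (fun k _ => by linarith)
      (fun k hk => by
        refine le_trans ?_ (right k (hm2 k hk).1)
        have h2 := h.marg (k - J)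
        nlinarith)
      (by
        rw [sum_const, nsmul_eq_mul]
        have h1 := card_le_of_Ico s2 _ _ hm2
        push_cast at h1
        nlinarith)
    have b1 := h.ext J (by linarith) hT s1 (fun k hk => by have := hm1 k hk; omega)
    have b2 : W ≤ ∏ k ∈ s2, cc (bb ^ (k - J) * y) := by
      have := h.cost (s2.image (fun k => k - J)) (fun k hk => by
        obtain ⟨j, hj, rfl⟩ := mem_image.mp hk
        have := (hm2 j hj).2
        push_cast at this
        omega)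
      rwa [prod_image (fun a _ b _ hab => by simpa using hab)] at this
    have c1 : W * exp (-3) * exp (-1) ≤ _ :=
      (mul_le_mul_of_nonneg_right b1 (exp_pos _).le).trans a1
    have c2 : W * exp (-2800) ≤ _ := (mul_le_mul_of_nonneg_right b2 (exp_pos _).le).trans a2
    refine le_trans ?_ (mul_le_mul c1 c2 (by positivity) (prod_nonneg fun k _ => cc_nonneg _))
    have : W * exp (-3) * exp (-1) * (W * exp (-2800)) = W * W * exp (-2804) := by
      rw [show (-2804 : ℝ) = -3 + -1 + -2800 by norm_num, exp_add, exp_add]; ring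
    rw [this]
    exact mul_le_mul_of_nonneg_left (exp_le_exp.mpr (by norm_num)) (mul_nonneg hW hW)

end Pool.Agent.Lib.MP_e840b2_an
end

-- part Pool.Agent.Lib.MP_e840b2_an.Iter
section

/-! The doubling construction: base case and iteration. -/

set_option autoImplicit false
open Finset Real

namespace Pool.Agent.Lib.MP_e840b2_an

/-- The argument of the unimodular conjugate, in turns. -/
noncomputable def th : ℝ := Complex.arg aa / (2 * π)

lemma ee_th : ee th = aa := by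
  unfold ee th
  have h := Complex.norm_mul_exp_arg_mul_I aa
  rw [norm_aa, Complex.ofReal_one, one_mul] at h
  have := pi_pos
  have e : 2 * π * (Complex.arg aa / (2 * π)) = Complex.arg aa := by field_simp
  rw [e, h]

lemma norm_one_sub_aa (q M : ℕ) (δ : ℝ) (h : |(q : ℝ) * th - round ((q : ℝ) * th)| ≤ δ) :
    ‖1 - aa ^ (-((q * M : ℕ) : ℤ))‖ ≤ 2 * π * (M * δ) := by
  have h1 : aa ^ (-((q * M : ℕ) : ℤ)) = ee (-(M * ((q : ℝ) * th - round ((q : ℝ) * th)))) := by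
    rw [zpow_neg, zpow_natCast, ← ee_th, ← ee_nat_mul]
    apply inv_eq_of_mul_eq_one_right
    rw [← ee_add, ← ee_int (M * round ((q : ℝ) * th))]
    congr 1
    push_cast
    ring
  rw [h1, norm_sub_rev]
  refine (norm_ee_sub_one_le _).trans ?_
  rw [abs_neg, abs_mul, Nat.abs_cast]
  have := pi_pos
  gcongr

lemma base_St (J : ℕ) (hJ : 1 ≤ J) (ε : ℝ) (hε : ε ≤ 1 / 100)
    (h : 0.183 * ‖1 - aa ^ (-(J : ℤ))‖ ≤ ε) :
    St (ys * (1 - bb ^ (-(J : ℤ)))) (zs * (1 - aa ^ (-(J : ℤ)))) (-ys * (1 - bb ^ (J : ℤ))) (J + 5)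
      ε (1 / 10) ((1 / 10) ^ (J + 5) * exp (-3)) := by
  have hb0 := bb_zpow_pos (-(J : ℤ))
  have hb1 : bb ^ (-(J : ℤ)) ≤ bb⁻¹ := by simpa using bb_zpow_le (a := -(J : ℤ)) (b := -1) (by omega)
  have hi := bb_inv_lt
  have hi' := bb_inv_gt
  have hy0 := ys_pos
  have hy1 := ys_lt
  have hy2 := ys_gt
  have hz : ‖zs * (1 - aa ^ (-(J : ℤ)))‖ ≤ ε := by
    rw [norm_mul]
    exact (mul_le_mul_of_nonneg_right norm_zs_lt.le (norm_nonneg _)).trans h
  have hbJ : (1 : ℝ) ≤ bb ^ (J : ℤ) := by simpa using bb_zpow_le (a := 0) (b := J) (by omega)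
  have hd := dual_base.step J
  have hpos : ∀ k : ℤ, 0 ≤ bb ^ k * (ys * (1 - bb ^ (-(J : ℤ)))) ∧
      bb ^ k * (ys * (1 - bb ^ (-(J : ℤ)))) ≤ bb ^ k * 0.244 := by
    intro k
    have := bb_zpow_pos k
    constructor
    · apply mul_nonneg this.le (mul_nonneg hy0.le (by linarith))
    · apply mul_le_mul_of_nonneg_left _ this.le
      nlinarith
  have hm2 : bb ^ (-2 : ℤ) ≤ 0.3381 := by
    rw [zpow_neg, zpow_ofNat, ← inv_pow]
    nlinarith
  have marg : ∀ k : ℤ, 1 / 10 ≤ cc (bb ^ k * (ys * (1 - bb ^ (-(J : ℤ))))) := by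
    intro k
    rcases le_or_gt k 1 with hk | hk
    · have h1 : bb ^ k ≤ bb := by simpa using bb_zpow_le (a := k) (b := 1) hk
      have h2 : |bb ^ k * (ys * (1 - bb ^ (-(J : ℤ))))| ≤ 0.45 := by
        rw [abs_of_nonneg (hpos k).1]
        nlinarith [(hpos k).2, bb_lt]
      linarith [cc_ge_lin _ (h2.trans (by norm_num))]
    rcases le_or_gt k (J - 2) with hk2 | hk2
    · obtain ⟨n, hn⟩ := dual_base k
      have e1 : bb ^ k * (ys * (1 - bb ^ (-(J : ℤ)))) =
          n - (2 * (aa ^ k * zs).re + (bb ^ (k - J) - bb ^ (-k)) * ys) := by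
        rw [← hn, sub_eq_add_neg k, bb_zpow_add]; ring
      rw [e1, cc_int_sub]
      have h1 := abs_re_le' k zs
      have h2 : bb ^ (k - J) ≤ 0.3381 := (bb_zpow_le (by omega)).trans hm2
      have h3 : bb ^ (-k) ≤ 0.3381 := (bb_zpow_le (by omega)).trans hm2
      have h4 := bb_zpow_pos (k - J)
      have h5 := bb_zpow_pos (-k)
      have h6 : |(bb ^ (k - J) - bb ^ (-k)) * ys| ≤ 0.3381 * 0.244 := by
        rw [abs_mul, abs_of_pos hy0]
        exact mul_le_mul (abs_le.mpr ⟨by linarith, by linarith⟩) hy1.le hy0.le (by norm_num)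
      have h7 : |2 * (aa ^ k * zs).re + (bb ^ (k - J) - bb ^ (-k)) * ys| ≤ 0.45 :=
        (abs_add_le _ _).trans (by linarith [norm_zs_lt])
      linarith [cc_ge_lin _ (h7.trans (by norm_num))]
    · obtain ⟨n, hn⟩ := hd k
      have e1 : bb ^ k * (ys * (1 - bb ^ (-(J : ℤ)))) =
          n - (2 * (aa ^ k * (zs * (1 - aa ^ (-(J : ℤ))))).re +
            bb ^ (-k) * (-ys * (1 - bb ^ (J : ℤ)))) := by
        rw [← hn]; ring
      rw [e1, cc_int_sub]
      have h1 := abs_re_le' k (zs * (1 - aa ^ (-(J : ℤ))))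
      have h2 : bb ^ (-k) * bb ^ (J : ℤ) ≤ bb := by
        rw [← bb_zpow_add]
        simpa using bb_zpow_le (a := -k + J) (b := 1) (by omega)
      have h5 := bb_zpow_pos (-k)
      have h6 : |bb ^ (-k) * (-ys * (1 - bb ^ (J : ℤ)))| ≤ 1.723 * 0.244 := by
        rw [show bb ^ (-k) * (-ys * (1 - bb ^ (J : ℤ))) =
          (bb ^ (-k) * bb ^ (J : ℤ) - bb ^ (-k)) * ys by ring, abs_mul, abs_of_pos hy0]
        refine mul_le_mul (abs_le.mpr ⟨?_, by linarith [bb_lt]⟩) hy1.le hy0.le (by norm_num)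
        nlinarith
      have h7 : |2 * (aa ^ k * (zs * (1 - aa ^ (-(J : ℤ))))).re +
            bb ^ (-k) * (-ys * (1 - bb ^ (J : ℤ)))| ≤ 0.45 :=
        (abs_add_le _ _).trans (by linarith)
      linarith [cc_ge_lin _ (h7.trans (by norm_num))]
  refine ⟨hd, ?_, ?_, hz, ?_, marg, ?_⟩
  · have := hpos 0
    simp only [zpow_zero, one_mul] at this
    rw [abs_of_nonneg this.1]
    linarith [this.2]
  · have := hpos 0
    simp only [zpow_zero, one_mul] at this
    rw [abs_of_nonneg this.1]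
    have h1 : bb ^ (-((J + 5 : ℕ) : ℤ)) ≤ bb ^ (-2 : ℤ) * bb ^ (-2 : ℤ) * bb ^ (-2 : ℤ) := by
      rw [← bb_zpow_add, ← bb_zpow_add]
      exact bb_zpow_le (by push_cast; omega)
    have h2 := bb_zpow_pos (-2)
    have h3 : bb ^ (-2 : ℤ) * bb ^ (-2 : ℤ) ≤ 0.3381 * 0.3381 :=
      mul_le_mul hm2 hm2 h2.le (by norm_num)
    have h4 : bb ^ (-2 : ℤ) * bb ^ (-2 : ℤ) * bb ^ (-2 : ℤ) ≤ 0.3381 * 0.3381 * 0.3381 :=
      mul_le_mul h3 hm2 h2.le (by norm_num)
    nlinarith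
  · rw [abs_mul, abs_neg, abs_of_pos hy0, abs_sub_comm,
      abs_of_nonneg (show 0 ≤ bb ^ (J : ℤ) - 1 by linarith)]
    have h1 : bb ^ (J : ℤ) * bb ≤ bb ^ ((J + 5 : ℕ) : ℤ) := by
      rw [← zpow_add_one₀ bb_pos.ne']
      exact bb_zpow_le (by push_cast; omega)
    nlinarith [bb_gt]
  · intro s hs
    rw [← prod_filter_mul_prod_filter_not s (fun k => 0 ≤ k)]
    set s1 := s.filter (fun k => 0 ≤ k) with hs1
    set s2 := s.filter (fun k => ¬ 0 ≤ k) with hs2
    apply mul_le_mul _ _ (exp_pos _).le (prod_nonneg fun k _ => cc_nonneg _)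
    · have h1 := card_le_of_Ico s1 0 (J + 5) (fun k hk =>
        ⟨(mem_filter.mp hk).2, by simpa using hs k (mem_filter.mp hk).1⟩)
      calc (1 / 10 : ℝ) ^ (J + 5) ≤ (1 / 10) ^ s1.card :=
            pow_le_pow_of_le_one (by norm_num) (by norm_num) (by exact_mod_cast h1)
        _ = ∏ _k ∈ s1, (1 / 10 : ℝ) := by rw [prod_const]
        _ ≤ _ := prod_le_prod (fun _ _ => by norm_num) (fun k _ => marg k)
    · have hm : ∀ k ∈ s2, k < 0 := fun k hk => not_le.mp (mem_filter.mp hk).2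
      have := prod_pert s2 (fun k => cc (bb ^ k * (ys * (1 - bb ^ (-(J : ℤ)))))) (fun _ => 1)
        (fun k => 0.488 * bb ^ (-(-k))) 3 (fun _ _ => zero_le_one)
        (fun k _ => by have := bb_zpow_pos (-(-k)); positivity)
        (fun k hk => by
          have := bb_zpow_le_one (a := -(-k)) (by linarith [hm k hk])
          linarith)
        (fun k hk => by
          have h1 := bb_zpow_le_one (a := k) (by linarith [hm k hk])
          have h2 := hpos k
          have h3 := cc_ge_lin (bb ^ k * (ys * (1 - bb ^ (-(J : ℤ)))))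
            (by rw [abs_of_nonneg h2.1]; linarith [h2.2])
          rw [abs_of_nonneg h2.1] at h3
          rw [neg_neg]
          linarith [h2.2])
        (by
          rw [← mul_sum]
          have h2 := sum_geom_le s2 (fun k => -k) (fun a _ b _ hab => by simpa using hab)
            (fun k hk => by linarith [hm k hk])
          linarith)
      simpa using this

/-- Logarithmic bookkeeping. -/
def Good (e l u : ℝ) : Prop :=
  ∃ (y : ℝ) (z : ℂ) (w : ℝ) (L : ℕ) (m : ℝ), St y z w L (exp (-e)) m (exp (-u)) ∧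
    1 / 20 + 20 * exp (-e) ≤ m ∧ (L : ℝ) + 4 * e + 2 ≤ exp l ∧ 0 ≤ l ∧ l ≤ e + 2 ∧ 20 ≤ e

lemma exp_ge_pow (n : ℕ) : (2.7 : ℝ) ^ n ≤ exp n := by
  rw [← Real.exp_one_pow]
  exact pow_le_pow_left₀ (by norm_num) (by linarith [Real.exp_one_gt_d9]) n

lemma exp_two_ge : (7 : ℝ) ≤ exp 2 := by
  have h := exp_ge_pow 2
  push_cast at h
  exact le_trans (by norm_num) h

lemma exp_eight_ge : (1300 : ℝ) ≤ exp 8 := by
  have h := exp_ge_pow 8
  push_cast at h
  exact le_trans (by norm_num) h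

lemma exp_twenty_ge : (1000 : ℝ) ≤ exp 20 := by
  have h := exp_ge_pow 20
  push_cast at h
  exact le_trans (by norm_num) h

lemma exp_neg_le {e : ℝ} (he : 20 ≤ e) : exp (-e) ≤ 1 / 100000 := by
  have h1 : exp (-e) ≤ exp (-20) := exp_le_exp.mpr (by linarith)
  have h2 := exp_ge_pow 20
  rw [Real.exp_neg 20] at h1
  refine h1.trans ?_
  rw [inv_le_comm₀ (exp_pos _) (by norm_num)]
  push_cast at h2
  refine le_trans (by norm_num) h2

lemma good_base : ∃ u, Good 20 22 u := by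
  have hE : (1000 : ℝ) ≤ exp 20 := exp_twenty_ge
  obtain ⟨q, hq0, hq1, hq⟩ := Real.exists_nat_abs_mul_sub_round_le th
    (n := ⌊2 * exp 20⌋₊) (Nat.floor_pos.mpr (by linarith))
  have h1 := norm_one_sub_aa q 1 _ hq
  rw [mul_one] at h1
  have h2 : 1 / ((⌊2 * exp 20⌋₊ : ℝ) + 1) ≤ exp (-20) / 2 := by
    rw [Real.exp_neg, div_le_div_iff₀ (by positivity) (by norm_num), inv_mul_eq_div,
      le_div_iff₀ (exp_pos _)]
    linarith [Nat.lt_floor_add_one (2 * exp 20)]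
  have he := exp_neg_le (e := 20) le_rfl
  have hS := base_St q hq0 (exp (-20)) (by linarith) (by
    have := pi_lt_d2
    have h0 := exp_pos (-20)
    push_cast at h1
    nlinarith [mul_le_mul this.le h2 (by positivity) (by norm_num)])
  have hu : ((1 / 10) ^ (q + 5) * exp (-3) : ℝ) =
      exp (-(-Real.log ((1 / 10) ^ (q + 5) * exp (-3)))) := by
    rw [neg_neg, Real.exp_log (by positivity)]
  rw [hu] at hS
  refine ⟨_, _, _, _, q + 5, 1 / 10, hS, by linarith, ?_, by norm_num, by norm_num, le_rfl⟩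
  · have h3 : (q : ℝ) ≤ 2 * exp 20 :=
      le_trans (by exact_mod_cast hq1) (Nat.floor_le (by positivity))
    have h4 : exp 22 = exp 20 * exp 2 := by rw [← exp_add]; norm_num
    have h5 : (7 : ℝ) ≤ exp 2 := exp_two_ge
    push_cast
    nlinarith

lemma good_step {e l u : ℝ} (h : Good e l u) :
    ∃ e' l', Good e' l' (2 * u + 3000) ∧ 9 / 4 * (e - l / 4 - 8) ≤ e' - l' / 4 - 8 := by
  obtain ⟨y, z, w, L, m, hS, hm, hL, hl0, hl, he⟩ := h
  have hε := exp_neg_le he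
  have hε0 := exp_pos (-e)
  have hEE : exp (-e) * exp e = 1 := by rw [← exp_add]; simp
  have hE : 100000 ≤ exp e := by nlinarith [exp_pos e]
  have h2e : exp (2 * e) = exp e * exp e := by rw [← exp_add]; ring_nf
  have h7 : (7 : ℝ) ≤ exp 2 := exp_two_ge
  have h8 : exp 2 ≤ 8 := by
    have : exp 2 = exp 1 * exp 1 := by rw [← exp_add]; norm_num
    nlinarith [Real.exp_one_lt_d9, exp_pos 1]
  have hle : exp l ≤ 8 * exp e := by
    have : exp l ≤ exp (e + 2) := exp_le_exp.mpr hl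
    rw [exp_add] at this
    nlinarith [exp_pos e]
  set s0 := ⌈2 * e⌉₊ with hs0
  have hs1 : (s0 : ℝ) ≤ 2 * e + 1 := (Nat.ceil_lt_add_one (by linarith)).le
  have hs2 : 2 * e ≤ s0 := Nat.le_ceil _
  have hs : bb ^ (-(s0 : ℤ)) ≤ exp (-e) := by
    rw [zpow_neg, zpow_natCast, Real.exp_neg]
    apply inv_anti₀ (exp_pos _)
    have h1 : exp (1 / 2) ≤ bb := by
      have : exp (1 / 2) * exp (1 / 2) = exp 1 := by rw [← exp_add]; norm_num
      nlinarith [Real.exp_one_lt_d9, exp_pos (1 / 2), bb_gt]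
    calc exp e ≤ exp (s0 * (1 / 2)) := exp_le_exp.mpr (by linarith)
      _ = exp (1 / 2) ^ s0 := Real.exp_nat_mul _ _
      _ ≤ bb ^ s0 := pow_le_pow_left₀ (exp_pos _).le h1 _
  set Lt := L + 2 * s0 with hLt
  have hLt1 : (Lt : ℝ) ≤ exp l := by rw [hLt]; push_cast; linarith
  have hLt2 : 2 ≤ Lt := by
    have : (2 : ℝ) ≤ s0 := by linarith
    have : 2 ≤ s0 := by exact_mod_cast this
    omega
  have hL10 : exp (-e) * (L + s0) ≤ 10 := by
    have : (L : ℝ) + s0 ≤ 8 * exp e := by linarith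
    nlinarith
  obtain ⟨q, hq0, hq1, hq⟩ := Real.exists_nat_abs_mul_sub_round_le th
    (n := ⌊exp (2 * e) / 200⌋₊) (Nat.floor_pos.mpr (by nlinarith))
  have hq2 : (q : ℝ) ≤ exp (2 * e) / 200 :=
    le_trans (by exact_mod_cast hq1) (Nat.floor_le (by positivity))
  have hδ : 2 * π * (1 / ((⌊exp (2 * e) / 200⌋₊ : ℝ) + 1)) ≤ exp (8 - 2 * e) := by
    have h1 : 1 / ((⌊exp (2 * e) / 200⌋₊ : ℝ) + 1) ≤ 200 / exp (2 * e) := by
      rw [div_le_div_iff₀ (by positivity) (exp_pos _)]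
      linarith [Nat.lt_floor_add_one (exp (2 * e) / 200)]
    have h2 : (1300 : ℝ) ≤ exp 8 := exp_eight_ge
    rw [Real.exp_sub]
    calc 2 * π * (1 / ((⌊exp (2 * e) / 200⌋₊ : ℝ) + 1)) ≤ 2 * 3.15 * (200 / exp (2 * e)) :=
          mul_le_mul (by linarith [pi_lt_d2]) h1 (by positivity) (by norm_num)
      _ = 1260 / exp (2 * e) := by ring
      _ ≤ exp 8 / exp (2 * e) := div_le_div_of_nonneg_right (by linarith) (exp_pos _).le
  have hW : exp (-u) * exp (-u) * exp (-3000) = exp (-(2 * u + 3000)) := by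
    rw [← exp_add, ← exp_add]; ring_nf
  have hhalf : ∀ e' : ℝ, e + 1 ≤ e' → 1 / 20 + 20 * exp (-e') ≤ m - 10 * exp (-e) := by
    intro e' he'
    have h1 : exp (-e') ≤ exp (-e + -1) := exp_le_exp.mpr (by linarith)
    rw [exp_add] at h1
    have h2 : exp (-1) ≤ 1 / 2 := by
      rw [Real.exp_neg, inv_le_comm₀ (exp_pos _) (by norm_num)]
      linarith [Real.exp_one_gt_d9]
    nlinarith
  have hεsq : exp (-e) ^ 2 * exp (2 * e) = 1 := by
    rw [h2e]; linear_combination (exp (-e) * exp e + 1) * hEE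
  rcases le_or_gt Lt q with hc | hc
  · have h1 := norm_one_sub_aa q 1 _ hq
    rw [mul_one, Nat.cast_one, one_mul] at h1
    have hS' := hS.step (exp_pos _).le s0 q hc (by omega) hs (by linarith)
      (by nlinarith [mul_le_mul_of_nonneg_left hq2 (sq_nonneg (exp (-e)))]) (by linarith) hL10
      (exp (-(3 * e - 8))) (by
        calc exp (-e) * ‖1 - aa ^ (-(q : ℤ))‖ ≤ exp (-e) * exp (8 - 2 * e) :=
              mul_le_mul_of_nonneg_left (h1.trans hδ) hε0.le
          _ = exp (-(3 * e - 8)) := by rw [← exp_add]; ring_nf)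
    rw [hW] at hS'
    refine ⟨3 * e - 8, 2 * e, ⟨_, _, _, _, _, hS', hhalf _ (by linarith), ?_, by linarith,
      by linarith, by linarith⟩, by linarith⟩
    push_cast
    have : (0 : ℝ) ≤ L := Nat.cast_nonneg L
    nlinarith
  · set M := Lt / q + 1 with hM
    have hJ1 : Lt ≤ q * M := by
      rw [hM]; exact (Nat.lt_mul_div_succ Lt hq0).le
    have hJ2 : q * M ≤ 2 * Lt := by
      rw [hM, mul_add, mul_one]
      have := Nat.mul_div_le Lt q
      omega
    have hM2 : M ≤ 2 * Lt := by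
      have := Nat.div_le_self Lt q
      omega
    have hJ3 : ((q * M : ℕ) : ℝ) ≤ 2 * exp l := by
      have : ((q * M : ℕ) : ℝ) ≤ ((2 * Lt : ℕ) : ℝ) := by exact_mod_cast hJ2
      push_cast at this ⊢
      linarith
    have hM3 : (M : ℝ) ≤ exp (l + 1) := by
      have : (M : ℝ) ≤ ((2 * Lt : ℕ) : ℝ) := by exact_mod_cast hM2
      push_cast at this
      rw [exp_add]
      nlinarith [Real.exp_one_gt_d9, exp_pos l]
    have h1 := norm_one_sub_aa q M _ hq
    have hS' := hS.step (exp_pos _).le s0 (q * M) hJ1 (by omega) hs (by linarith)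
      (by
        have : exp (-e) ^ 2 * ((q * M : ℕ) : ℝ) ≤ exp (-e) ^ 2 * (16 * exp e) :=
          mul_le_mul_of_nonneg_left (by linarith) (sq_nonneg _)
        nlinarith) (by linarith) hL10
      (exp (-(3 * e - l - 9))) (by
        calc exp (-e) * ‖1 - aa ^ (-((q * M : ℕ) : ℤ))‖
            ≤ exp (-e) * (exp (l + 1) * exp (8 - 2 * e)) := by
              apply mul_le_mul_of_nonneg_left (h1.trans _) hε0.le
              rw [mul_left_comm]
              exact mul_le_mul hM3 hδ (by have := pi_pos; positivity) (exp_pos _).le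
          _ = exp (-(3 * e - l - 9)) := by rw [← exp_add, ← exp_add]; ring_nf)
    rw [hW] at hS'
    refine ⟨3 * e - l - 9, l + 2, ⟨_, _, _, _, _, hS', hhalf _ (by linarith), ?_, by linarith,
      by linarith, by linarith⟩, by linarith⟩
    rw [Nat.cast_add, exp_add]
    have : (0 : ℝ) ≤ L := Nat.cast_nonneg L
    nlinarith [exp_pos l]

lemma exists_good (A : ℝ) : ∃ e l u, Good e l u ∧ A ≤ e - u := by
  obtain ⟨u0, h0⟩ := good_base
  have main : ∀ r : ℕ, ∃ e l u, Good e l u ∧ (9 / 4 : ℝ) ^ r ≤ e - l / 4 - 8 ∧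
      u + 3000 = 2 ^ r * (u0 + 3000) := by
    intro r
    induction r with
    | zero => exact ⟨20, 22, u0, h0, by norm_num, by simp⟩
    | succ r ih =>
      obtain ⟨e, l, u, h1, h2, h3⟩ := ih
      obtain ⟨e', l', h4, h5⟩ := good_step h1
      refine ⟨e', l', _, h4, ?_, ?_⟩
      · rw [pow_succ]; linarith
      · rw [pow_succ]; linarith
  obtain ⟨r, hr⟩ := pow_unbounded_of_one_lt (|u0 + 3000| + |A|) (show (1 : ℝ) < 9 / 8 by norm_num)
  obtain ⟨e, l, u, h1, h2, h3⟩ := main r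
  refine ⟨e, l, u, h1, ?_⟩
  obtain ⟨_, _, _, _, _, -, -, -, hl0, -, -⟩ := h1
  have h4 : (9 / 4 : ℝ) ^ r = 2 ^ r * (9 / 8) ^ r := by rw [← mul_pow]; norm_num
  have h5 : (1 : ℝ) ≤ 2 ^ r := one_le_pow₀ (by norm_num)
  have h6 := le_abs_self (u0 + 3000)
  have h7 := le_abs_self A
  have h8 := abs_nonneg A
  nlinarith [mul_le_mul_of_nonneg_left (show u0 + 3000 + |A| ≤ (9 / 8) ^ r by linarith)
    (show (0 : ℝ) ≤ 2 ^ r by linarith)]

end Pool.Agent.Lib.MP_e840b2_an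
end
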