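import Pool.Agent.Lib.MP_e840b2_an.Iter
import Pool.Agent.Lib.MP_e840b2_an.Ent

-- part Pool.Agent.Lib.MP_e840b2_an.Block
section

/-! The coding cost of one block of digits. -/

set_option autoImplicit false
open Finset Real

namespace Pool.Agent.Lib.MP_e840b2_an

/-- A binary digit as a real number. -/
def dg (b : Bool) : ℝ := if b then 1 else 0

lemma dg_nonneg (b : Bool) : 0 ≤ dg b := by cases b <;> simp [dg]
lemma dg_le_one (b : Bool) : dg b ≤ 1 := by cases b <;> simp [dg]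

lemma sum_ee_dg (N : ℕ) (a : Fin N → ℝ) :
    ∑ b : Fin N → Bool, ee (∑ t, dg (b t) * a t) = 2 ^ N * ∏ t, (1 + ee (a t)) / 2 := by
  have h := Fintype.prod_sum (fun (t : Fin N) (x : Bool) => ee (dg x * a t))
  simp only [ee_sum]
  rw [← h, prod_div_distrib]
  simp only [prod_const, card_univ, Fintype.card_fin]
  rw [mul_div_cancel₀ _ (by simp)]
  apply prod_congr rfl
  intro t _
  simp [dg, ee_zero, add_comm]

lemma second_moment (N : ℕ) : ∀ (a : ℂ) (γ : Fin N → ℂ),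
    ∑ b : Fin N → Bool, ‖a + ∑ t, (dg (b t) : ℂ) * γ t‖ ^ 2 =
      2 ^ N * (‖a + (∑ t, γ t) / 2‖ ^ 2 + (∑ t, ‖γ t‖ ^ 2) / 4) := by
  induction N with
  | zero => intro a γ; simp
  | succ N ih =>
    intro a γ
    rw [← (Fin.consEquiv (fun _ : Fin (N + 1) => Bool)).sum_comp, Fintype.sum_prod_type]
    simp only [Fin.consEquiv_apply, Fin.sum_univ_succ, Fin.cons_zero, Fin.cons_succ, ← add_assoc,
      ih, Fintype.sum_bool]
    have h := parallelogram_law_with_norm ℝ (a + (γ 0 + ∑ t : Fin N, γ t.succ) / 2) (γ 0 / 2)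
    have e1 : a + (dg true : ℂ) * γ 0 + (∑ t : Fin N, γ t.succ) / 2 =
        a + (γ 0 + ∑ t : Fin N, γ t.succ) / 2 + γ 0 / 2 := by simp [dg]; ring
    have e2 : a + (dg false : ℂ) * γ 0 + (∑ t : Fin N, γ t.succ) / 2 =
        a + (γ 0 + ∑ t : Fin N, γ t.succ) / 2 - γ 0 / 2 := by simp [dg]; ring
    have e3 : ‖γ 0 / 2‖ = ‖γ 0‖ / 2 := by simp
    rw [e1, e2]
    rw [e3] at h
    linear_combination (2 : ℝ) ^ N * h

/-- Two-sided geometric kernel on the integers. -/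
noncomputable def k1 (n : ℤ) : ℝ := (1 / 2) ^ n.natAbs / 4

lemma k1_pos (n : ℤ) : 0 < k1 n := by unfold k1; positivity

lemma k1_subP (c : ℤ) : SubP (fun n => k1 (n - c)) := by
  refine ⟨fun n => (k1_pos _).le, fun s => ?_⟩
  have key : ∀ t : Finset ℤ, Set.InjOn (fun n => (n - c).natAbs) t →
      ∑ n ∈ t, (1 / 2 : ℝ) ^ (n - c).natAbs ≤ 2 := by
    intro t ht
    rw [← sum_image (f := fun j => (1 / 2 : ℝ) ^ j) ht]
    exact sum_le_hasSum _ (fun j _ => by positivity) hasSum_geometric_two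
  unfold k1
  rw [← sum_div, ← sum_filter_add_sum_filter_not s (fun n => c ≤ n)]
  have h1 := key (s.filter (fun n => c ≤ n)) (fun a ha b hb hab => by
    have := (mem_filter.mp ha).2
    have := (mem_filter.mp hb).2
    simp only at hab
    omega)
  have h2 := key (s.filter (fun n => ¬ c ≤ n)) (fun a ha b hb hab => by
    have := (mem_filter.mp ha).2
    have := (mem_filter.mp hb).2
    simp only at hab
    omega)
  linarith

lemma neg_log_k1 (n : ℤ) : -Real.log (k1 n) ≤ 2 + |(n : ℝ)| := by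
  unfold k1
  rw [Real.log_div (by positivity) (by norm_num), Real.log_pow, one_div, Real.log_inv]
  have h1 : Real.log 2 ≤ 1 := by linarith [Real.log_two_lt_d9]
  have h2 : Real.log 4 = 2 * Real.log 2 := by
    rw [show (4 : ℝ) = 2 ^ 2 by norm_num, Real.log_pow]; norm_num
  have h3 : ((n.natAbs : ℕ) : ℝ) = |(n : ℝ)| := by
    rw [Nat.cast_natAbs, Int.cast_abs]
  rw [h3]
  nlinarith [abs_nonneg (n : ℝ)]

lemma abs_floor_sub (a δ : ℝ) : |((⌊a + δ⌋ - ⌊a⌋ : ℤ) : ℝ)| ≤ |δ| + 1 := by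
  push_cast
  rw [abs_le]
  have := Int.floor_le (a + δ)
  have := Int.lt_floor_add_one (a + δ)
  have := Int.floor_le a
  have := Int.lt_floor_add_one a
  have := le_abs_self δ
  have := neg_abs_le δ
  constructor <;> linarith

/-- The coarse state: integer part of the expanding coordinate and cell of the neutral one. -/
noncomputable def cst (ρ X : ℝ) (ζ : ℂ) : ℤ × ℤ × ℤ := (⌊X⌋, ⌊ζ.re / ρ⌋, ⌊ζ.im / ρ⌋)

lemma cell_cost (N m : ℕ) (ρ : ℝ) (hρ : 1 ≤ ρ) (hN : (N : ℝ) ≤ ρ ^ 2) (ζ : ℂ) :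
    ∑ b : Fin N → Bool,
      (-Real.log (k1 (⌊(ζ + ∑ t : Fin N, (dg (b t) : ℂ) * aa ^ (-((m : ℤ) + t + 1))).re / ρ⌋ -
          ⌊ζ.re / ρ⌋)) +
        -Real.log (k1 (⌊(ζ + ∑ t : Fin N, (dg (b t) : ℂ) * aa ^ (-((m : ℤ) + t + 1))).im / ρ⌋ -
          ⌊ζ.im / ρ⌋))) ≤ 2 ^ N * 8 := by
  have h2 := second_moment N 0 (fun t => aa ^ (-((m : ℤ) + t + 1)))
  simp only [zero_add, norm_aa_zpow, one_pow, sum_const, card_univ, Fintype.card_fin,
    nsmul_eq_mul, mul_one] at h2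
  have h3 : ‖(∑ t : Fin N, aa ^ (-((m : ℤ) + t + 1))) / 2‖ ≤ 1 := by
    have e : ∑ t : Fin N, aa ^ (-((m : ℤ) + t + 1)) =
        aa ^ (-((m : ℤ) + 1)) * ∑ t ∈ range N, aa⁻¹ ^ t := by
      rw [mul_sum, ← Fin.sum_univ_eq_sum_range (fun t => aa ^ (-((m : ℤ) + 1)) * aa⁻¹ ^ t)]
      apply sum_congr rfl
      intro t _
      rw [inv_pow, ← zpow_natCast, ← zpow_neg, ← zpow_add₀ aa_ne]
      congr 1
      ring
    rw [e, norm_div, norm_mul, norm_aa_zpow, one_mul]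
    have h4 := norm_geom_le aa⁻¹ (by rw [norm_inv, norm_aa, inv_one]) N
    have h5 := norm_aa_inv_sub_one
    have h6 := norm_nonneg (∑ t ∈ range N, aa⁻¹ ^ t)
    simp only [Complex.norm_ofNat]
    nlinarith
  have h4 : ∀ b : Fin N → Bool,
      (-Real.log (k1 (⌊(ζ + ∑ t : Fin N, (dg (b t) : ℂ) * aa ^ (-((m : ℤ) + t + 1))).re / ρ⌋ -
          ⌊ζ.re / ρ⌋)) +
        -Real.log (k1 (⌊(ζ + ∑ t : Fin N, (dg (b t) : ℂ) * aa ^ (-((m : ℤ) + t + 1))).im / ρ⌋ -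
          ⌊ζ.im / ρ⌋))) ≤
        7 + ‖∑ t : Fin N, (dg (b t) : ℂ) * aa ^ (-((m : ℤ) + t + 1))‖ ^ 2 / (2 * ρ ^ 2) := by
    intro b
    set v := ∑ t : Fin N, (dg (b t) : ℂ) * aa ^ (-((m : ℤ) + t + 1))
    rw [Complex.add_re, Complex.add_im, add_div, add_div]
    have a1 := neg_log_k1 (⌊ζ.re / ρ + v.re / ρ⌋ - ⌊ζ.re / ρ⌋)
    have a2 := neg_log_k1 (⌊ζ.im / ρ + v.im / ρ⌋ - ⌊ζ.im / ρ⌋)
    have a3 := abs_floor_sub (ζ.re / ρ) (v.re / ρ)
    have a4 := abs_floor_sub (ζ.im / ρ) (v.im / ρ)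
    have a5 : ‖v‖ ^ 2 / (2 * ρ ^ 2) = (|v.re / ρ| ^ 2 + |v.im / ρ| ^ 2) / 2 := by
      rw [sq_abs, sq_abs, Complex.sq_norm, Complex.normSq_apply]
      field_simp
    rw [a5]
    nlinarith [sq_nonneg (|v.re / ρ| - 1), sq_nonneg (|v.im / ρ| - 1)]
  refine (sum_le_sum fun b _ => h4 b).trans ?_
  rw [sum_add_distrib, ← sum_div, h2]
  simp only [sum_const, card_univ, Fintype.card_fun, Fintype.card_bool, Fintype.card_fin,
    nsmul_eq_mul]
  push_cast
  have h5 : (‖(∑ t : Fin N, aa ^ (-((m : ℤ) + t + 1))) / 2‖ ^ 2 + N / 4) / (2 * ρ ^ 2) ≤ 1 := by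
    rw [div_le_one (by positivity)]
    nlinarith [norm_nonneg ((∑ t : Fin N, aa ^ (-((m : ℤ) + t + 1))) / 2)]
  have h6 : (0 : ℝ) < 2 ^ N := by positivity
  rw [mul_div_assoc]
  nlinarith

/-- Test frequencies. -/
noncomputable def ff (y : ℝ) (L N i : ℕ) : ℝ := bb ^ ((L + 6 + 3 * i : ℤ) - N) * y

/-- Fourier coefficients of the block at the test frequencies. -/
noncomputable def om (y : ℝ) (L N i : ℕ) : ℂ :=
  ∏ t : Fin N, (1 + ee (bb ^ ((L + 6 + 3 * i : ℤ) - 1 - t) * y)) / 2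

/-- Phases of the test functions. -/
noncomputable def uu (y : ℝ) (z : ℂ) (L N : ℕ) (ρ : ℝ) (m : ℕ) (c : ℤ × ℤ) (i : ℕ) : ℂ :=
  (starRingEnd ℂ) (om y L N i) / (‖om y L N i‖ : ℂ) *
    ee (2 * (aa ^ ((L + 6 + 3 * i : ℤ) + m) * z * ⟨ρ * c.1, ρ * c.2⟩).re)

lemma norm_uu_le (y : ℝ) (z : ℂ) (L N : ℕ) (ρ : ℝ) (m : ℕ) (c : ℤ × ℤ) (i : ℕ) :
    ‖uu y z L N ρ m c i‖ ≤ 1 := by
  unfold uu
  rw [norm_mul, norm_ee, mul_one, norm_div, Complex.norm_conj, Complex.norm_real, norm_norm]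
  exact div_self_le_one _

/-- The kernel for the expanding coordinate. -/
noncomputable def kD (y : ℝ) (z : ℂ) (L N nJ : ℕ) (ρ lam : ℝ) (m : ℕ) (s : ℤ × ℤ × ℤ) (n : ℤ) : ℝ :=
  if n ∈ Ico ⌊bb ^ N * s.1⌋ (⌊bb ^ N * s.1⌋ + ⌊4 * bb ^ N⌋₊) then
    (∏ i ∈ range nJ, rf lam (uu y z L N ρ m s.2 i) (ff y L N i) n) / (5 * bb ^ N) else 0

/-- The full kernel. -/
noncomputable def kk (y : ℝ) (z : ℂ) (L N nJ : ℕ) (ρ lam : ℝ) (m : ℕ) (s s' : ℤ × ℤ × ℤ) : ℝ :=
  kD y z L N nJ ρ lam m s s'.1 * (k1 (s'.2.1 - s.2.1) * k1 (s'.2.2 - s.2.2))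

lemma abs_ff (y : ℝ) (L N i : ℕ) : |ff y L N i| = bb ^ ((L + 6 + 3 * i : ℤ) - N) * |y| := by
  unfold ff
  rw [abs_mul, abs_of_pos (bb_zpow_pos _)]

lemma kD_subP {y : ℝ} {z : ℂ} {w : ℝ} {L : ℕ} {ε mm W : ℝ} (h : St y z w L ε mm W)
    (N nJ : ℕ) (ρ lam : ℝ) (hl0 : 0 ≤ lam) (hl1 : lam ≤ 1 / 2) (hN : L + 6 + 3 * nJ ≤ N)
    (m : ℕ) (s : ℤ × ℤ × ℤ) : SubP (kD y z L N nJ ρ lam m s) := by
  have hb : 0 < bb ^ N := pow_pos bb_pos N
  have hR : ∀ n : ℝ, 0 < ∏ i ∈ range nJ, rf lam (uu y z L N ρ m s.2 i) (ff y L N i) n :=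
    fun n => prod_pos fun i _ => rf_pos lam hl0 hl1 _ (norm_uu_le _ _ _ _ _ _ _ _) _ _
  refine ⟨fun n => ?_, fun t => ?_⟩
  · unfold kD
    split_ifs
    · exact (div_pos (hR _) (by positivity)).le
    · exact le_rfl
  · unfold kD
    rw [← sum_filter]
    set n0 := ⌊bb ^ N * s.1⌋
    set M := ⌊4 * bb ^ N⌋₊
    have hf0 : bb ^ (-(N : ℤ)) ≤ |ff y L N 0| := by
      rw [abs_ff]
      refine le_trans ?_ (mul_le_mul_of_nonneg_left h.y_ge (bb_zpow_pos _).le)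
      rw [← bb_zpow_add]
      exact bb_zpow_le (by push_cast; omega)
    have hf0' : 0 < |ff y L N 0| := lt_of_lt_of_le (bb_zpow_pos _) hf0
    have hZ := riesz_sum_le lam hl0 hl1 (uu y z L N ρ m s.2) (norm_uu_le _ _ _ _ _ _ _)
      (ff y L N) n0 M hf0' (fun j => by
        rw [abs_ff, abs_ff, show ((L : ℤ) + 6 + 3 * ((j + 1 : ℕ) : ℤ) - N) =
          3 + (L + 6 + 3 * j - N) by push_cast; ring, bb_zpow_add, mul_assoc]
        apply mul_le_mul_of_nonneg_right _ (mul_nonneg (bb_zpow_pos _).le (abs_nonneg _))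
        rw [zpow_ofNat]
        nlinarith [bb_gt, mul_pos bb_pos bb_pos]) nJ (fun j hj => by
        rw [abs_ff]
        have := bb_zpow_le_one (a := (L + 6 + 3 * j : ℤ) - N) (by omega)
        nlinarith [h.y_le, abs_nonneg y, bb_zpow_pos ((L + 6 + 3 * j : ℤ) - N)])
    have hM : (M : ℝ) ≤ 4 * bb ^ N := Nat.floor_le (by positivity)
    have h1 : 1 / |ff y L N 0| ≤ bb ^ N := by
      rw [div_le_iff₀ hf0']
      rw [zpow_neg, zpow_natCast] at hf0
      have := mul_le_mul_of_nonneg_left hf0 hb.le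
      rwa [mul_inv_cancel₀ hb.ne'] at this
    calc ∑ n ∈ t.filter (fun n => n ∈ Ico n0 (n0 + M)),
          (∏ i ∈ range nJ, rf lam (uu y z L N ρ m s.2 i) (ff y L N i) n) / (5 * bb ^ N)
        ≤ ∑ n ∈ (range M).image (fun i : ℕ => n0 + i),
          (∏ i ∈ range nJ, rf lam (uu y z L N ρ m s.2 i) (ff y L N i) n) / (5 * bb ^ N) := by
          apply sum_le_sum_of_subset_of_nonneg
          · intro n hn
            have := mem_Ico.mp (mem_filter.mp hn).2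
            exact mem_image.mpr ⟨(n - n0).toNat, mem_range.mpr (by omega), by omega⟩
          · intro n _ _
            exact (div_pos (hR _) (by positivity)).le
      _ = (∑ i ∈ range M, ∏ j ∈ range nJ,
            rf lam (uu y z L N ρ m s.2 j) (ff y L N j) (n0 + i)) / (5 * bb ^ N) := by
          rw [sum_image (fun a _ b _ hab => by simpa using hab), sum_div]
          push_cast
          rfl
      _ ≤ 1 := by
          rw [div_le_one (by positivity)]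
          linarith

lemma kk_subP {y : ℝ} {z : ℂ} {w : ℝ} {L : ℕ} {ε mm W : ℝ} (h : St y z w L ε mm W)
    (N nJ : ℕ) (ρ lam : ℝ) (hl0 : 0 ≤ lam) (hl1 : lam ≤ 1 / 2) (hN : L + 6 + 3 * nJ ≤ N)
    (m : ℕ) (s : ℤ × ℤ × ℤ) : SubP (kk y z L N nJ ρ lam m s) :=
  (kD_subP h N nJ ρ lam hl0 hl1 hN m s).prod ((k1_subP s.2.1).prod (k1_subP s.2.2))

lemma om_ge {y : ℝ} {z : ℂ} {w : ℝ} {L : ℕ} {ε mm W : ℝ} (h : St y z w L ε mm W)
    (N i : ℕ) (hε : ε ≤ 1 / 40) (hT : ε ^ 2 * N ≤ 1 / 100) (hi : L + 6 + 3 * i ≤ N) :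
    W * exp (-3) ≤ ‖om y L N i‖ := by
  unfold om
  rw [norm_prod]
  simp only [norm_one_add_ee]
  have := h.ext N hε hT (univ.image (fun t : Fin N => (L + 6 + 3 * i : ℤ) - 1 - t)) (fun k hk => by
    obtain ⟨t, -, rfl⟩ := mem_image.mp hk
    omega)
  rw [prod_image (fun a _ b _ hab => by
    apply Fin.ext
    omega)] at this
  exact this

lemma mean_ge {y : ℝ} {z : ℂ} {w : ℝ} {L : ℕ} {ε mm W : ℝ} (h : St y z w L ε mm W) (hW : 0 < W)
    (N i m : ℕ) (ρ : ℝ) (hρ : 0 < ρ) (hερ : ε * ρ ≤ 1 / 50) (hε : ε ≤ 1 / 40)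
    (hT : ε ^ 2 * N ≤ 1 / 100) (hi : L + 6 + 3 * i ≤ N) (X : ℝ) (ζ : ℂ) (Xw : ℝ)
    (hXw : |Xw| ≤ 2.4)
    (hpair : ∀ j : ℤ, ∃ n : ℤ,
      bb ^ j * y * X + 2 * (aa ^ (j + m) * z * ζ).re + bb ^ (-j) * w * Xw = n) :
    2 ^ N * (W * exp (-3) / 2) ≤ ∑ b : Fin N → Bool, (uu y z L N ρ m (cst ρ X ζ).2 i *
      ee (ff y L N i * (bb ^ N * X + ∑ t : Fin N, dg (b t) * bb ^ ((N : ℤ) - 1 - t)))).re := by
  have hε0 : 0 ≤ ε := (norm_nonneg _).trans h.z_le
  set j : ℤ := L + 6 + 3 * i with hj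
  have hom := om_ge h N i hε hT hi
  have hom0 : 0 < ‖om y L N i‖ := lt_of_lt_of_le (by positivity) hom
  obtain ⟨n, hn⟩ := hpair j
  have e1 : ∀ b : Fin N → Bool,
      ff y L N i * (bb ^ N * X + ∑ t : Fin N, dg (b t) * bb ^ ((N : ℤ) - 1 - t)) =
        bb ^ j * y * X + ∑ t : Fin N, dg (b t) * (bb ^ (j - 1 - t) * y) := by
    intro b
    unfold ff
    rw [← hj, mul_add, mul_sum]
    congr 1
    · rw [show j = (j - N) + (N : ℤ) by ring, bb_zpow_add, zpow_natCast]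
      simp only [sub_add_cancel]
      ring
    · apply sum_congr rfl
      intro t _
      rw [show j - 1 - t = (j - N) + ((N : ℤ) - 1 - t) by ring, bb_zpow_add]
      ring
  simp only [e1, ee_add]
  rw [← Complex.re_sum, ← mul_sum, ← mul_sum, sum_ee_dg]
  set c : ℂ := ⟨ρ * ((cst ρ X ζ).2.1 : ℤ), ρ * ((cst ρ X ζ).2.2 : ℤ)⟩ with hc
  set x : ℝ := 2 * (aa ^ (j + m) * (z * (ζ - c))).re + bb ^ (-j) * w * Xw with hx
  have e2 : uu y z L N ρ m (cst ρ X ζ).2 i * (ee (bb ^ j * y * X) * (2 ^ N * om y L N i)) =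
      ((2 ^ N * ‖om y L N i‖ : ℝ) : ℂ) * ee (-x) := by
    unfold uu
    rw [← hj, ← hc]
    have e3 : ee (2 * (aa ^ (j + m) * z * c).re) * ee (bb ^ j * y * X) = ee (-x) := by
      rw [← ee_add, ← one_mul (ee (-x)), ← ee_int n, ← ee_add, ← hn, hx]
      congr 1
      rw [show aa ^ (j + m) * (z * (ζ - c)) = aa ^ (j + m) * z * ζ - aa ^ (j + m) * z * c by ring,
        Complex.sub_re]
      ring
    have e4 : (starRingEnd ℂ) (om y L N i) * om y L N i = (‖om y L N i‖ : ℂ) ^ 2 := by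
      rw [Complex.conj_mul']
    have e5 : (‖om y L N i‖ : ℂ) ≠ 0 := by exact_mod_cast hom0.ne'
    rw [← e3]
    push_cast
    field_simp
    linear_combination (ee (2 * (aa ^ (j + m) * z * c).re) * ee (bb ^ j * y * X)) * e4
  have e6 : (∏ t : Fin N, (1 + ee (bb ^ (j - 1 - t) * y)) / 2) = om y L N i := rfl
  rw [e6, e2, Complex.re_ofReal_mul, ee_re]
  have hζ : ‖ζ - c‖ ≤ 2 * ρ := by
    refine (Complex.norm_le_abs_re_add_abs_im _).trans ?_
    have key : ∀ a : ℝ, |a - ρ * (⌊a / ρ⌋ : ℤ)| ≤ ρ := by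
      intro a
      have h1 := Int.floor_le (a / ρ)
      have h2 := Int.lt_floor_add_one (a / ρ)
      rw [le_div_iff₀ hρ] at h1
      rw [div_lt_iff₀ hρ] at h2
      rw [abs_le]
      constructor <;> linarith
    have h1 := key ζ.re
    have h2 := key ζ.im
    simp only [hc, cst, Complex.sub_re, Complex.sub_im]
    linarith
  have hx1 : |x| ≤ 1 / 8 := by
    have h1 := abs_re_le' (j + m) (z * (ζ - c))
    rw [norm_mul] at h1
    have h2 : ‖z‖ * ‖ζ - c‖ ≤ ε * (2 * ρ) := mul_le_mul h.z_le hζ (norm_nonneg _) hε0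
    have h3 : |bb ^ (-j) * w * Xw| ≤ 0.04 := by
      rw [abs_mul, abs_mul, abs_of_pos (bb_zpow_pos _)]
      have h4 : bb ^ (-j) * |w| ≤ bb ^ (-6 : ℤ) / 5 := by
        refine (mul_le_mul_of_nonneg_left h.w_le (bb_zpow_pos _).le).trans ?_
        rw [← mul_div_assoc, ← bb_zpow_add]
        exact div_le_div_of_nonneg_right (bb_zpow_le (by omega)) (by norm_num)
      have h5 : bb ^ (-6 : ℤ) ≤ 0.04 := by
        rw [zpow_neg, zpow_ofNat, ← inv_pow]
        refine (pow_le_pow_left₀ (inv_pos.mpr bb_pos).le bb_inv_lt.le 6).trans (by norm_num)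
      have h6 := mul_le_mul (h4.trans (show bb ^ (-6 : ℤ) / 5 ≤ 0.008 by linarith)) hXw
        (abs_nonneg _) (by norm_num)
      linarith
    refine (abs_add_le _ _).trans ?_
    nlinarith
  have hcos : 1 / 2 ≤ cos (2 * π * -x) := by
    have := cos_ge_lin (2 * -x) (by rw [abs_mul, abs_neg, abs_two]; linarith)
    rw [abs_mul, abs_neg, abs_two, show π * (2 * -x) = 2 * π * -x by ring] at this
    linarith
  have h7 : (0 : ℝ) < 2 ^ N := by positivity
  rw [mul_assoc]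
  apply mul_le_mul_of_nonneg_left _ h7.le
  nlinarith

lemma block_cost {y : ℝ} {z : ℂ} {w : ℝ} {L : ℕ} {ε mm W : ℝ} (h : St y z w L ε mm W) (hW : 0 < W)
    (N nJ m : ℕ) (ρ : ℝ) (hρ : 1 ≤ ρ) (hερ : ε * ρ ≤ 1 / 50) (hNρ : (N : ℝ) ≤ ρ ^ 2)
    (hN : L + 6 + 3 * nJ ≤ N) (hbig : 416 ≤ nJ * (W * exp (-3)) ^ 2) (X : ℝ) (ζ : ℂ) (Xw : ℝ)
    (hXw : |Xw| ≤ 2.4)
    (hpair : ∀ j : ℤ, ∃ n : ℤ,
      bb ^ j * y * X + 2 * (aa ^ (j + m) * z * ζ).re + bb ^ (-j) * w * Xw = n) :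
    (∀ b : Fin N → Bool, 0 < kk y z L N nJ ρ (W * exp (-3) / 8) m (cst ρ X ζ)
      (cst ρ (bb ^ N * X + ∑ t : Fin N, dg (b t) * bb ^ ((N : ℤ) - 1 - t))
        (ζ + ∑ t : Fin N, (dg (b t) : ℂ) * aa ^ (-((m : ℤ) + t + 1))))) ∧
    ∑ b : Fin N → Bool, -Real.log (kk y z L N nJ ρ (W * exp (-3) / 8) m (cst ρ X ζ)
      (cst ρ (bb ^ N * X + ∑ t : Fin N, dg (b t) * bb ^ ((N : ℤ) - 1 - t))
        (ζ + ∑ t : Fin N, (dg (b t) : ℂ) * aa ^ (-((m : ℤ) + t + 1))))) ≤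
      2 ^ N * (N * Real.log bb - 1) := by
  have hε0 : 0 ≤ ε := (norm_nonneg _).trans h.z_le
  have hε : ε ≤ 1 / 40 := by nlinarith
  have hT : ε ^ 2 * N ≤ 1 / 100 := by
    have : ε ^ 2 * N ≤ (ε * ρ) ^ 2 := by
      rw [mul_pow]; exact mul_le_mul_of_nonneg_left hNρ (sq_nonneg _)
    have h2 : (ε * ρ) ^ 2 ≤ (1 / 50) ^ 2 := pow_le_pow_left₀ (by positivity) hερ 2
    linarith
  have hW1 : W ≤ 1 := by simpa using h.cost ∅ (by simp)
  have he3 : exp (-3) ≤ 1 := exp_le_one_iff.mpr (by norm_num)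
  set W' := W * exp (-3) with hW'
  have hW'0 : 0 < W' := by positivity
  have hW'1 : W' ≤ 1 := by nlinarith [exp_pos (-3)]
  set lam := W' / 8 with hlam
  have hl0 : 0 ≤ lam := by positivity
  have hl1 : lam ≤ 1 / 2 := by linarith
  have hb : 0 < bb ^ N := pow_pos bb_pos N
  have hb1 : bb ≤ bb ^ N := le_self_pow₀ one_lt_bb.le (by omega)
  set X' : (Fin N → Bool) → ℝ :=
    fun b => bb ^ N * X + ∑ t : Fin N, dg (b t) * bb ^ ((N : ℤ) - 1 - t) with hX'
  have hmem : ∀ b, ⌊X' b⌋ ∈ Ico ⌊bb ^ N * (⌊X⌋ : ℤ)⌋ (⌊bb ^ N * (⌊X⌋ : ℤ)⌋ + ⌊4 * bb ^ N⌋₊) := by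
    intro b
    have h0 : 0 ≤ ∑ t : Fin N, dg (b t) * bb ^ ((N : ℤ) - 1 - t) :=
      sum_nonneg fun t _ => mul_nonneg (dg_nonneg _) (bb_zpow_pos _).le
    have h1 : ∑ t : Fin N, dg (b t) * bb ^ ((N : ℤ) - 1 - t) ≤ 1.4 * bb ^ N := by
      have h2 := sum_geom_le (univ : Finset (Fin N)) (fun t => (t : ℤ))
        (fun a _ b _ hab => by apply Fin.ext; simpa using hab) (fun t _ => by positivity)
      calc ∑ t : Fin N, dg (b t) * bb ^ ((N : ℤ) - 1 - t)
          ≤ ∑ t : Fin N, bb ^ N * bb⁻¹ * bb ^ (-(t : ℤ)) := by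
            apply sum_le_sum
            intro t _
            rw [show (N : ℤ) - 1 - t = N + -1 + -(t : ℤ) by ring, bb_zpow_add, bb_zpow_add,
              zpow_natCast, zpow_neg_one]
            have : 0 < bb ^ N * bb⁻¹ * bb ^ (-(t : ℤ)) :=
              mul_pos (mul_pos hb (inv_pos.mpr bb_pos)) (bb_zpow_pos _)
            nlinarith [dg_le_one (b t)]
        _ = bb ^ N * (bb⁻¹ * ∑ t : Fin N, bb ^ (-(t : ℤ))) := by rw [← mul_sum, mul_assoc]
        _ ≤ bb ^ N * (0.5814 * 2.4) := by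
            apply mul_le_mul_of_nonneg_left _ hb.le
            exact mul_le_mul bb_inv_lt.le h2 (sum_nonneg fun t _ => (bb_zpow_pos _).le)
              (by norm_num)
        _ ≤ 1.4 * bb ^ N := by nlinarith
    have h2 := Int.floor_le X
    have h3 := Int.lt_floor_add_one X
    rw [mem_Ico]
    constructor
    · apply Int.floor_le_floor
      simp only [hX']
      nlinarith
    · rw [Int.floor_lt]
      push_cast
      have h4 := Int.lt_floor_add_one (bb ^ N * (⌊X⌋ : ℤ))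
      have h5 := Nat.lt_floor_add_one (4 * bb ^ N)
      simp only [hX']
      nlinarith [bb_gt]
  have hkD : ∀ b, kD y z L N nJ ρ lam m (cst ρ X ζ) ⌊X' b⌋ =
      (∏ i ∈ range nJ, rf lam (uu y z L N ρ m (cst ρ X ζ).2 i) (ff y L N i) (⌊X' b⌋ : ℤ)) /
        (5 * bb ^ N) := by
    intro b
    unfold kD
    exact if_pos (hmem b)
  have hrf : ∀ i (x : ℝ), 0 < rf lam (uu y z L N ρ m (cst ρ X ζ).2 i) (ff y L N i) x :=
    fun i x => rf_pos lam hl0 hl1 _ (norm_uu_le _ _ _ _ _ _ _ _) _ _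
  have hkD0 : ∀ b, 0 < kD y z L N nJ ρ lam m (cst ρ X ζ) ⌊X' b⌋ := by
    intro b
    rw [hkD]
    exact div_pos (prod_pos fun i _ => hrf i _) (by positivity)
  refine ⟨fun b => mul_pos (hkD0 b) (mul_pos (k1_pos _) (k1_pos _)), ?_⟩
  have hσ : ∑ i ∈ range nJ, |ff y L N i| ≤ 0.6 := by
    have h2 := sum_geom_le (range nJ) (fun i => (N : ℤ) - (L + 6 + 3 * i))
      (fun a _ b _ hab => by simp only at hab; omega)
      (fun i hi => by have := mem_range.mp hi; omega)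
    simp only [abs_ff, neg_sub] at h2 ⊢
    rw [← sum_mul]
    nlinarith [h.y_le, abs_nonneg y]
  have hcost : ∀ b, -Real.log (kD y z L N nJ ρ lam m (cst ρ X ζ) ⌊X' b⌋) ≤
      N * Real.log bb + 4 + nJ * (2 * lam ^ 2) - lam * ∑ i ∈ range nJ,
        (uu y z L N ρ m (cst ρ X ζ).2 i * ee (ff y L N i * X' b)).re := by
    intro b
    rw [hkD, Real.log_div (prod_pos fun i _ => hrf i _).ne' (by positivity),
      Real.log_prod (fun i _ => (hrf i _).ne'), Real.log_mul (by norm_num) hb.ne', Real.log_pow]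
    have h5 : Real.log 5 ≤ 2 := by
      rw [Real.log_le_iff_le_exp (by norm_num)]; linarith [exp_two_ge]
    have h6 : ∀ i ∈ range nJ,
        -Real.log (rf lam (uu y z L N ρ m (cst ρ X ζ).2 i) (ff y L N i) (⌊X' b⌋ : ℤ)) ≤
          2 * lam ^ 2 - lam * (uu y z L N ρ m (cst ρ X ζ).2 i * ee (ff y L N i * X' b)).re +
            π * |ff y L N i| := by
      intro i _
      refine (neg_log_rf_le lam hl0 hl1 _ (norm_uu_le _ _ _ _ _ _ _ _) _ _).trans ?_
      have h7 : |(uu y z L N ρ m (cst ρ X ζ).2 i * ee (ff y L N i * X' b)).re -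
          (uu y z L N ρ m (cst ρ X ζ).2 i * ee (ff y L N i * (⌊X' b⌋ : ℤ))).re| ≤
            2 * π * |ff y L N i| := by
        rw [← Complex.sub_re, ← mul_sub]
        refine (Complex.abs_re_le_norm _).trans ?_
        rw [norm_mul]
        have h8 := norm_ee_sub_le (ff y L N i * X' b) (ff y L N i * (⌊X' b⌋ : ℤ))
        rw [← mul_sub, abs_mul] at h8
        have h9 : |X' b - (⌊X' b⌋ : ℤ)| ≤ 1 := by
          rw [abs_le]
          constructor <;> linarith [Int.floor_le (X' b), Int.lt_floor_add_one (X' b)]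
        have h10 : |ff y L N i| * |X' b - (⌊X' b⌋ : ℤ)| ≤ |ff y L N i| :=
          mul_le_of_le_one_right (abs_nonneg _) h9
        have h11 := mul_le_mul (norm_uu_le y z L N ρ m (cst ρ X ζ).2 i)
          (h8.trans (mul_le_mul_of_nonneg_left h10 (by have := pi_pos; positivity)))
          (norm_nonneg _) zero_le_one
        linarith
      have h12 := (abs_le.mp h7).2
      have h13 : 0 ≤ π * |ff y L N i| := mul_nonneg pi_pos.le (abs_nonneg _)
      nlinarith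
    have h7 := sum_le_sum h6
    rw [sum_add_distrib, sum_sub_distrib, sum_const, card_range, nsmul_eq_mul, ← mul_sum,
      ← mul_sum, sum_neg_distrib] at h7
    have h8 : π * ∑ i ∈ range nJ, |ff y L N i| ≤ 3.15 * 0.6 :=
      mul_le_mul pi_lt_d2.le hσ (sum_nonneg fun _ _ => abs_nonneg _) (by norm_num)
    linarith
  have hcell := cell_cost N m ρ hρ hNρ ζ
  have hmean : ∑ i ∈ range nJ, 2 ^ N * (W' / 2) ≤ ∑ i ∈ range nJ, ∑ b : Fin N → Bool,
      (uu y z L N ρ m (cst ρ X ζ).2 i * ee (ff y L N i * X' b)).re :=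
    sum_le_sum fun i hi => mean_ge h hW N i m ρ (by linarith) hερ hε hT
      (by have := mem_range.mp hi; omega) X ζ Xw hXw hpair
  rw [sum_const, card_range, nsmul_eq_mul, sum_comm] at hmean
  have hsum := sum_le_sum (fun b (_ : b ∈ (univ : Finset (Fin N → Bool))) => hcost b)
  rw [sum_sub_distrib, ← mul_sum, sum_const, card_univ, Fintype.card_fun, Fintype.card_bool,
    Fintype.card_fin, nsmul_eq_mul] at hsum
  push_cast at hsum
  have hsplit : ∀ b : Fin N → Bool, -Real.log (kk y z L N nJ ρ lam m (cst ρ X ζ)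
      (cst ρ (X' b) (ζ + ∑ t : Fin N, (dg (b t) : ℂ) * aa ^ (-((m : ℤ) + t + 1))))) =
      -Real.log (kD y z L N nJ ρ lam m (cst ρ X ζ) ⌊X' b⌋) +
      (-Real.log (k1 (⌊(ζ + ∑ t : Fin N, (dg (b t) : ℂ) * aa ^ (-((m : ℤ) + t + 1))).re / ρ⌋ -
          ⌊ζ.re / ρ⌋)) +
        -Real.log (k1 (⌊(ζ + ∑ t : Fin N, (dg (b t) : ℂ) * aa ^ (-((m : ℤ) + t + 1))).im / ρ⌋ -
          ⌊ζ.im / ρ⌋))) := by
    intro b
    have h0 := hkD0 b
    unfold kk
    simp only [cst] at h0 ⊢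
    rw [Real.log_mul h0.ne' (mul_pos (k1_pos _) (k1_pos _)).ne',
      Real.log_mul (k1_pos _).ne' (k1_pos _).ne']
    ring
  refine le_trans (le_of_eq (sum_congr rfl fun b _ => hsplit b)) ?_
  rw [sum_add_distrib]
  have h2N : (0 : ℝ) < 2 ^ N := by positivity
  have h9 := mul_le_mul_of_nonneg_left hmean hl0
  have h10 : 2 ^ N * 13 ≤ 2 ^ N * (nJ * W' ^ 2 / 32) :=
    mul_le_mul_of_nonneg_left (by linarith) h2N.le
  have h11 : lam * (nJ * (2 ^ N * (W' / 2))) - 2 ^ N * (nJ * (2 * lam ^ 2)) =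
      2 ^ N * (nJ * W' ^ 2 / 32) := by rw [hlam]; ring
  nlinarith

end Pool.Agent.Lib.MP_e840b2_an
end

-- part Pool.Agent.Lib.MP_e840b2_an.Main
section

/-! The entropy of the digit sums is at most `n (log bb - c) + O(log n)`. -/

set_option autoImplicit false
open Finset Real

namespace Pool.Agent.Lib.MP_e840b2_an

/-- Digit sequences extended by zero. -/
def eg {n : ℕ} (ω : Fin n → Bool) (i : ℕ) : ℝ := if h : i < n then dg (ω ⟨i, h⟩) else 0

/-- The expanding coordinate. -/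
noncomputable def XX {n : ℕ} (ω : Fin n → Bool) (m : ℕ) : ℝ :=
  ∑ i ∈ range m, eg ω i * bb ^ ((m : ℤ) - 1 - i)

/-- The (unrotated) neutral coordinate. -/
noncomputable def ZZ {n : ℕ} (ω : Fin n → Bool) (m : ℕ) : ℂ :=
  ∑ i ∈ range m, (eg ω i : ℂ) * aa ^ (-((i : ℤ) + 1))

/-- The contracting coordinate. -/
noncomputable def WW {n : ℕ} (ω : Fin n → Bool) (m : ℕ) : ℝ :=
  ∑ i ∈ range m, eg ω i * bb ^ (-((m : ℤ) - 1 - i))

lemma eg_cases {n : ℕ} (ω : Fin n → Bool) (i : ℕ) : eg ω i = 0 ∨ eg ω i = 1 := by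
  unfold eg dg
  split_ifs <;> simp

lemma abs_WW_le {n : ℕ} (ω : Fin n → Bool) (m : ℕ) : |WW ω m| ≤ 2.4 := by
  have h := sum_geom_le (range m) (fun i => (m : ℤ) - 1 - i)
    (fun a _ b _ hab => by simp only at hab; omega)
    (fun i hi => by have := mem_range.mp hi; omega)
  refine (abs_sum_le_sum_abs _ _).trans (le_trans (sum_le_sum fun i _ => ?_) h)
  rcases eg_cases ω i with h | h <;> rw [h]
  · simpa using (bb_zpow_pos _).le
  · rw [one_mul, abs_of_pos (bb_zpow_pos _)]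

lemma norm_ZZ_le {n : ℕ} (ω : Fin n → Bool) (m : ℕ) : ‖ZZ ω m‖ ≤ m := by
  refine (norm_sum_le _ _).trans ?_
  calc ∑ i ∈ range m, ‖(eg ω i : ℂ) * aa ^ (-((i : ℤ) + 1))‖ ≤ ∑ _i ∈ range m, (1 : ℝ) := by
        apply sum_le_sum
        intro i _
        rw [norm_mul, norm_aa_zpow, mul_one]
        rcases eg_cases ω i with h | h <;> rw [h] <;> simp
    _ = m := by simp

lemma Dual.pair {y : ℝ} {z : ℂ} {w : ℝ} (h : Dual y z w) {n : ℕ} (ω : Fin n → Bool) (m : ℕ)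
    (j : ℤ) : ∃ a : ℤ,
      bb ^ j * y * XX ω m + 2 * (aa ^ (j + m) * z * ZZ ω m).re + bb ^ (-j) * w * WW ω m = a := by
  choose f hf using h
  refine ⟨∑ i ∈ range m, if eg ω i = 0 then 0 else f (j + m - 1 - i), ?_⟩
  unfold XX ZZ WW
  rw [mul_sum, mul_sum, mul_sum, Complex.re_sum, mul_sum, ← sum_add_distrib, ← sum_add_distrib]
  push_cast
  apply sum_congr rfl
  intro i _
  rcases eg_cases ω i with h | h <;> rw [h]
  · simp
  · rw [if_neg one_ne_zero, ← hf]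
    have e1 : bb ^ (j + m - 1 - i) = bb ^ j * bb ^ ((m : ℤ) - 1 - i) := by
      rw [← bb_zpow_add]; congr 1; ring
    have e2 : bb ^ (-(j + m - 1 - i)) = bb ^ (-j) * bb ^ (-((m : ℤ) - 1 - i)) := by
      rw [← bb_zpow_add]; congr 1; ring
    have e3 : aa ^ (j + m - 1 - i) = aa ^ (j + m) * aa ^ (-((i : ℤ) + 1)) := by
      rw [← zpow_add₀ aa_ne]; congr 1; ring
    rw [e1, e2, e3]
    have e4 : aa ^ (j + m) * z * (((1 : ℝ) : ℂ) * aa ^ (-((i : ℤ) + 1))) =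
        aa ^ (j + m) * aa ^ (-((i : ℤ) + 1)) * z := by push_cast; ring
    rw [e4]
    ring

lemma XX_add {n : ℕ} (ω : Fin n → Bool) (m N : ℕ) :
    XX ω (m + N) = bb ^ N * XX ω m + ∑ t : Fin N, eg ω (m + t) * bb ^ ((N : ℤ) - 1 - t) := by
  unfold XX
  rw [sum_range_add, mul_sum,
    Fin.sum_univ_eq_sum_range (fun t => eg ω (m + t) * bb ^ ((N : ℤ) - 1 - t))]
  congr 1
  · apply sum_congr rfl
    intro i _
    rw [show ((m + N : ℕ) : ℤ) - 1 - i = N + ((m : ℤ) - 1 - i) by push_cast; ring, bb_zpow_add,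
      zpow_natCast]
    ring
  · apply sum_congr rfl
    intro i _
    congr 2
    push_cast
    ring

lemma ZZ_add {n : ℕ} (ω : Fin n → Bool) (m N : ℕ) :
    ZZ ω (m + N) = ZZ ω m + ∑ t : Fin N, (eg ω (m + t) : ℂ) * aa ^ (-((m : ℤ) + t + 1)) := by
  unfold ZZ
  rw [sum_range_add,
    Fin.sum_univ_eq_sum_range (fun t => (eg ω (m + t) : ℂ) * aa ^ (-((m : ℤ) + t + 1)))]
  push_cast
  rfl

lemma chain_bound {y : ℝ} {z : ℂ} {w : ℝ} {L : ℕ} {ε mm W : ℝ} (h : St y z w L ε mm W) (hW : 0 < W)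
    (N nJ : ℕ) (ρ : ℝ) (hρ : 1 ≤ ρ) (hερ : ε * ρ ≤ 1 / 50) (hNρ : (N : ℝ) ≤ ρ ^ 2)
    (hN : L + 6 + 3 * nJ ≤ N) (hbig : 416 ≤ nJ * (W * exp (-3)) ^ 2) (K : ℕ) :
    H (fun ω : Fin (K * N) → Bool => cst ρ (XX ω (K * N)) (ZZ ω (K * N))) ≤
      K * (N * Real.log bb - 1) := by
  have hW1 : W ≤ 1 := by simpa using h.cost ∅ (by simp)
  have he3 : exp (-3) ≤ 1 := exp_le_one_iff.mpr (by norm_num)
  have hl0 : 0 ≤ W * exp (-3) / 8 := by positivity
  have hl1 : W * exp (-3) / 8 ≤ 1 / 2 := by nlinarith [exp_pos (-3)]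
  have hlt : ∀ k < K, ∀ t : Fin N, k * N + t < K * N := by
    intro k hk t
    have := t.2
    have : (k + 1) * N ≤ K * N := Nat.mul_le_mul_right N hk
    nlinarith
  apply H_chain (fun k (ω : Fin (K * N) → Bool) => cst ρ (XX ω (k * N)) (ZZ ω (k * N)))
    (fun k => kk y z L N nJ ρ (W * exp (-3) / 8) (k * N))
  · intro ω ω'
    simp [XX, ZZ]
  · intro k s
    exact kk_subP h N nJ ρ _ hl0 hl1 hN _ s
  · intro k hk ω
    have hb := (block_cost h hW N nJ (k * N) ρ hρ hερ hNρ hN hbig (XX ω (k * N)) (ZZ ω (k * N))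
      (WW ω (k * N)) (abs_WW_le _ _) (h.dual.pair ω _)).1 (fun t => ω ⟨k * N + t, hlt k hk t⟩)
    have e : ∀ t : Fin N, eg ω (k * N + t) = dg (ω ⟨k * N + t, hlt k hk t⟩) := fun t => dif_pos _
    rw [add_mul, one_mul, XX_add, ZZ_add]
    simp only [e]
    exact hb
  · intro k hk
    let ι : Fin N → Fin (K * N) := fun t => ⟨k * N + t, hlt k hk t⟩
    have hι : Function.Injective ι := by
      intro a b hab
      have := congrArg Fin.val hab
      simp only [ι] at this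
      exact Fin.ext (by omega)
    have h1 := sum_extend ι hι (fun ω : Fin (K * N) → Bool =>
      -Real.log (kk y z L N nJ ρ (W * exp (-3) / 8) (k * N)
        (cst ρ (XX ω (k * N)) (ZZ ω (k * N))) (cst ρ (XX ω ((k + 1) * N)) (ZZ ω ((k + 1) * N)))))
    have h2 : ∀ ω : Fin (K * N) → Bool, ∑ b : Fin N → Bool,
        -Real.log (kk y z L N nJ ρ (W * exp (-3) / 8) (k * N)
        (cst ρ (XX (Function.extend ι b ω) (k * N)) (ZZ (Function.extend ι b ω) (k * N)))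
        (cst ρ (XX (Function.extend ι b ω) ((k + 1) * N))
          (ZZ (Function.extend ι b ω) ((k + 1) * N)))) ≤ 2 ^ N * (N * Real.log bb - 1) := by
      intro ω
      have hb := (block_cost h hW N nJ (k * N) ρ hρ hερ hNρ hN hbig (XX ω (k * N)) (ZZ ω (k * N))
        (WW ω (k * N)) (abs_WW_le _ _) (h.dual.pair ω _)).2
      refine le_trans (le_of_eq (sum_congr rfl fun b _ => ?_)) hb
      have e1 : ∀ t : Fin N, eg (Function.extend ι b ω) (k * N + t) = dg (b t) := by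
        intro t
        unfold eg
        rw [dif_pos (hlt k hk t)]
        exact congrArg dg (hι.extend_apply b ω t)
      have e2 : ∀ i ∈ range (k * N), eg (Function.extend ι b ω) i = eg ω i := by
        intro i hi
        unfold eg
        split_ifs with h'
        · rw [Function.extend_apply']
          rintro ⟨t, ht⟩
          have := congrArg Fin.val ht
          simp only [ι] at this
          have := mem_range.mp hi
          omega
        · rfl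
      have e3 : XX (Function.extend ι b ω) (k * N) = XX ω (k * N) :=
        sum_congr rfl fun i hi => by rw [e2 i hi]
      have e4 : ZZ (Function.extend ι b ω) (k * N) = ZZ ω (k * N) :=
        sum_congr rfl fun i hi => by rw [e2 i hi]
      rw [add_mul, one_mul, XX_add, ZZ_add, e3, e4]
      simp only [e1]
    have h3 := sum_le_sum (fun ω (_ : ω ∈ (univ : Finset (Fin (K * N) → Bool))) => h2 ω)
    rw [h1, sum_const, card_univ, nsmul_eq_mul, Fintype.card_fun (α := Fin N), Fintype.card_bool,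
      Fintype.card_fin] at h3
    push_cast at h3
    have hc : (0 : ℝ) < Fintype.card (Fin (K * N) → Bool) := by exact_mod_cast Fintype.card_pos
    rw [div_le_iff₀ hc]
    have h2N : (0 : ℝ) < 2 ^ N := by positivity
    apply le_of_mul_le_mul_left _ h2N
    linarith

lemma exists_chain : ∃ (N : ℕ) (ρ : ℝ), 0 < N ∧ ∀ K : ℕ,
    H (fun ω : Fin (K * N) → Bool => cst ρ (XX ω (K * N)) (ZZ ω (K * N))) ≤
      K * (N * Real.log bb - 1) := by
  obtain ⟨e, l, u, ⟨y, z, w, L, m, hS, -, hL, -, hl, he⟩, hA⟩ := exists_good 13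
  have hε := exp_neg_le he
  have hε0 := exp_pos (-e)
  have hEE : exp (-e) * exp e = 1 := by rw [← exp_add]; simp
  have hE : 100000 ≤ exp e := by nlinarith [exp_pos e]
  have h8 : exp 2 ≤ 8 := by
    have : exp 2 = exp 1 * exp 1 := by rw [← exp_add]; norm_num
    nlinarith [Real.exp_one_lt_d9, exp_pos 1]
  have hle : exp l ≤ 8 * exp e := by
    have : exp l ≤ exp (e + 2) := exp_le_exp.mpr hl
    rw [exp_add] at this
    nlinarith [exp_pos e]
  have hL8 : (L : ℝ) ≤ 8 * exp e := by linarith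
  set N := ⌊(exp e / 50) ^ 2⌋₊ with hN
  have hN1 : (N : ℝ) ≤ (exp e / 50) ^ 2 := Nat.floor_le (by positivity)
  have hN2 : (exp e / 50) ^ 2 < N + 1 := Nat.lt_floor_add_one _
  have hN3 : L + 6 ≤ N := by
    have : (L : ℝ) + 6 ≤ N := by nlinarith
    exact_mod_cast this
  set nJ := (N - L - 6) / 3 with hnJ
  have hn1 : L + 6 + 3 * nJ ≤ N := by omega
  have hn2 : N ≤ L + 8 + 3 * nJ := by omega
  have hn3 : exp e ^ 2 / 10000 ≤ nJ := by
    have : (N : ℝ) ≤ L + 8 + 3 * nJ := by exact_mod_cast hn2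
    nlinarith
  refine ⟨N, exp e / 50, by omega, chain_bound hS (exp_pos _) N nJ _ (by linarith)
    (by linarith) hN1 hn1 ?_⟩
  have h1 : exp e * (exp (-u) * exp (-3)) = exp (e - u - 3) := by
    rw [← exp_add, ← exp_add]; ring_nf
  have h2 : exp 10 ≤ exp (e - u - 3) := exp_le_exp.mpr (by linarith)
  have h3 := exp_ge_pow 10
  push_cast at h3
  have h4 : (20000 : ℝ) ≤ exp e * (exp (-u) * exp (-3)) := by
    rw [h1]; exact le_trans (by norm_num) (h3.trans h2)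
  have h5 := mul_le_mul_of_nonneg_right hn3 (sq_nonneg (exp (-u) * exp (-3)))
  nlinarith

lemma H_pair_le_log {Ω : Type*} [Fintype Ω] [Nonempty Ω] {A B : Type*} (f : Ω → A) (g : Ω → B)
    (S : Finset B) (hS : ∀ ω, g ω ∈ S) : H (fun ω => (f ω, g ω)) ≤ H f + Real.log S.card := by
  classical
  have hc : (0 : ℝ) < S.card := by
    exact_mod_cast card_pos.mpr ⟨_, hS (Classical.arbitrary Ω)⟩
  have h := H_pair_le f g (fun _ b => if b ∈ S then (S.card : ℝ)⁻¹ else 0) (fun _ => ⟨fun b => by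
    dsimp only
    split_ifs
    · positivity
    · exact le_rfl, fun t => by
      rw [← sum_filter, sum_const, nsmul_eq_mul, ← div_eq_mul_inv, div_le_one hc]
      exact_mod_cast card_le_card (fun b hb => (mem_filter.mp hb).2)⟩)
    (fun ω => by rw [if_pos (hS ω)]; positivity)
  simp only [hS, if_true, Real.log_inv, neg_neg, sum_const, card_univ, nsmul_eq_mul] at h
  have hΩ : (0 : ℝ) < Fintype.card Ω := by exact_mod_cast Fintype.card_pos
  rwa [mul_div_cancel_left₀ _ hΩ.ne'] at h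

/-- The traces of the digit sum. -/
noncomputable def tr {n : ℕ} (ω : Fin n → Bool) (j : ℤ) : ℝ :=
  bb ^ j * ys * XX ω n + 2 * (aa ^ (j + n) * zs * ZZ ω n).re + bb ^ (-j) * (-ys) * WW ω n

lemma tr_comb {n : ℕ} (ω : Fin n → Bool) :
    tr ω 3 - (t2 + bb⁻¹) * tr ω 2 + (1 + t2 * bb⁻¹) * tr ω 1 - bb⁻¹ * tr ω 0 =
      (bb - bb⁻¹) * (bb * s13) * ys * XX ω n := by
  unfold tr
  have hb0 := bb_pos.ne'
  have e : ∀ j : ℕ, aa ^ ((j : ℤ) + n) * zs * ZZ ω n = aa ^ j * (aa ^ (n : ℤ) * zs * ZZ ω n) := by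
    intro j
    rw [zpow_add₀ aa_ne, zpow_natCast]
    ring
  have e3 := e 3
  have e2 := e 2
  have e1 := e 1
  have e0 := e 0
  push_cast at e3 e2 e1 e0
  rw [e3, e2, e1, e0]
  generalize aa ^ (n : ℤ) * zs * ZZ ω n = c
  have h1 : (aa ^ 3 * c).re - (t2 + bb⁻¹) * (aa ^ 2 * c).re + (1 + t2 * bb⁻¹) * (aa ^ 1 * c).re -
      bb⁻¹ * (aa ^ 0 * c).re = 0 := by
    rw [← Complex.re_ofReal_mul, ← Complex.re_ofReal_mul, ← Complex.re_ofReal_mul,
      ← Complex.sub_re, ← Complex.add_re, ← Complex.sub_re]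
    have : aa ^ 3 * c - ((t2 + bb⁻¹ : ℝ) : ℂ) * (aa ^ 2 * c) +
        ((1 + t2 * bb⁻¹ : ℝ) : ℂ) * (aa ^ 1 * c) - ((bb⁻¹ : ℝ) : ℂ) * (aa ^ 0 * c) = 0 := by
      push_cast
      linear_combination (aa - (bb : ℂ)⁻¹) * c * aa_sq
    rw [this, Complex.zero_re]
  simp only [zpow_neg, zpow_ofNat]
  have h2 : bb * bb⁻¹ = 1 := mul_inv_cancel₀ hb0
  have h3 : bb ^ 3 - (t2 + bb⁻¹) * bb ^ 2 + (1 + t2 * bb⁻¹) * bb - bb⁻¹ =
      (bb - bb⁻¹) * (bb * s13) := by
    rw [← t1_sub]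
    linear_combination (bb - bb⁻¹) * bb_sq
  rw [← inv_pow, ← inv_pow, ← inv_pow, ← inv_pow]
  linear_combination 2 * h1 + ys * XX ω n * h3

lemma H_XX_le (n : ℕ) (ρ : ℝ) : H (fun ω : Fin n → Bool => XX ω n) ≤
    H (fun ω : Fin n → Bool => cst ρ (XX ω n) (ZZ ω n)) + 4 * Real.log (2 * n + 7) := by
  have h := H_pair_le_log (fun ω : Fin n → Bool => cst ρ (XX ω n) (ZZ ω n))
    (fun ω (j : Fin 4) => ⌊tr ω j⌋ - ⌊bb ^ (j : ℤ) * ys * (⌊XX ω n⌋ : ℤ)⌋)
    (Fintype.piFinset fun _ => Icc (-((n : ℤ) + 3)) (n + 3)) (fun ω => by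
      rw [Fintype.mem_piFinset]
      intro j
      have h1 := abs_floor_sub (bb ^ (j : ℤ) * ys * (⌊XX ω n⌋ : ℤ))
        (tr ω j - bb ^ (j : ℤ) * ys * (⌊XX ω n⌋ : ℤ))
      rw [add_sub_cancel] at h1
      have h2 : |tr ω j - bb ^ (j : ℤ) * ys * (⌊XX ω n⌋ : ℤ)| ≤ n + 2 := by
        have e : tr ω j - bb ^ (j : ℤ) * ys * (⌊XX ω n⌋ : ℤ) =
            bb ^ (j : ℤ) * ys * (XX ω n - (⌊XX ω n⌋ : ℤ)) +
              2 * (aa ^ ((j : ℤ) + n) * (zs * ZZ ω n)).re + bb ^ (-(j : ℤ)) * (-ys) * WW ω n := by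
          unfold tr
          rw [mul_assoc (aa ^ _)]
          ring
        rw [e]
        have a1 : |bb ^ (j : ℤ) * ys * (XX ω n - (⌊XX ω n⌋ : ℤ))| ≤ 1.3 := by
          have b1 : bb ^ (j : ℤ) ≤ bb ^ (3 : ℤ) := bb_zpow_le (by omega)
          rw [zpow_ofNat] at b1
          have b2 : bb ^ 3 ≤ 1.723 ^ 3 := pow_le_pow_left₀ bb_pos.le bb_lt.le 3
          have b3 := Int.floor_le (XX ω n)
          have b4 := Int.lt_floor_add_one (XX ω n)
          have b5 := bb_zpow_pos (j : ℤ)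
          have b6 : bb ^ (j : ℤ) * ys ≤ 1.723 ^ 3 * 0.244 :=
            mul_le_mul (b1.trans b2) ys_lt.le ys_pos.le (by norm_num)
          have b7 := mul_pos b5 ys_pos
          rw [abs_of_nonneg (mul_nonneg b7.le (by linarith))]
          nlinarith
        have a2 := abs_re_le' ((j : ℤ) + n) (zs * ZZ ω n)
        rw [norm_mul] at a2
        have a3 : ‖zs‖ * ‖ZZ ω n‖ ≤ 0.183 * n :=
          mul_le_mul norm_zs_lt.le (norm_ZZ_le ω n) (norm_nonneg _) (by norm_num)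
        have a4 : |bb ^ (-(j : ℤ)) * (-ys) * WW ω n| ≤ 1 * 0.244 * 2.4 := by
          rw [abs_mul, abs_mul, abs_neg, abs_of_pos (bb_zpow_pos _), abs_of_pos ys_pos]
          exact mul_le_mul (mul_le_mul (bb_zpow_le_one (by omega)) ys_lt.le ys_pos.le zero_le_one)
            (abs_WW_le ω n) (abs_nonneg _) (by norm_num)
        have a5 : (0 : ℝ) ≤ n := Nat.cast_nonneg n
        refine (abs_add_three _ _ _).trans ?_
        linarith
      rw [mem_Icc, ← abs_le]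
      have h3 : |((⌊tr ω j⌋ - ⌊bb ^ (j : ℤ) * ys * (⌊XX ω n⌋ : ℤ)⌋ : ℤ) : ℝ)| ≤ n + 3 := by linarith
      exact_mod_cast h3)
  rw [Fintype.card_piFinset, prod_const, card_univ, Fintype.card_fin, Int.card_Icc,
    show ((n : ℤ) + 3 + 1 - -((n : ℤ) + 3)).toNat = 2 * n + 7 by omega] at h
  push_cast at h
  rw [Real.log_pow] at h
  push_cast at h
  refine le_trans (H_mono _ _ fun ω ω' hω => ?_) h
  have h1 : ⌊XX ω n⌋ = ⌊XX ω' n⌋ := (Prod.mk.inj (Prod.mk.inj hω).1).1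
  have h2 : ∀ j : Fin 4, tr ω j = tr ω' j := by
    intro j
    have h3 := congrFun (Prod.mk.inj hω).2 j
    simp only [h1, sub_left_inj] at h3
    obtain ⟨a, ha⟩ := dual_base.pair ω n j
    obtain ⟨a', ha'⟩ := dual_base.pair ω' n j
    have e : tr ω j = a := ha
    have e' : tr ω' j = a' := ha'
    rw [e, e', Int.floor_intCast, Int.floor_intCast] at h3
    rw [e, e', h3]
  have h3 := tr_comb ω
  have g0 : tr ω 0 = tr ω' 0 := h2 0
  have g1 : tr ω 1 = tr ω' 1 := h2 1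
  have g2 : tr ω 2 = tr ω' 2 := h2 2
  have g3 : tr ω 3 = tr ω' 3 := h2 3
  rw [g0, g1, g2, g3, tr_comb] at h3
  have h4 : 0 < (bb - bb⁻¹) * (bb * s13) * ys :=
    mul_pos (mul_pos (by linarith [bb_gt, bb_inv_lt]) (mul_pos bb_pos (by linarith [s13_gt])))
      ys_pos
  exact (mul_left_cancel₀ h4.ne' h3).symm

lemma H_val_le (n : ℕ) :
    H (fun ε : Fin n → Bool => ∑ i : Fin n, (if ε i then (1 : ℝ) else -1) * bb⁻¹ ^ (i : ℕ)) ≤
      H (fun ω : Fin n → Bool => XX ω n) := by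
  have key : ∀ ε : Fin n → Bool, ∑ i : Fin n, (if ε i then (1 : ℝ) else -1) * bb⁻¹ ^ (i : ℕ) =
      2 * bb ^ (1 - (n : ℤ)) * XX ε n - ∑ i : Fin n, bb⁻¹ ^ (i : ℕ) := by
    intro ε
    unfold XX
    rw [← Fin.sum_univ_eq_sum_range (fun i => eg ε i * bb ^ ((n : ℤ) - 1 - i)), mul_sum,
      ← sum_sub_distrib]
    apply sum_congr rfl
    intro i _
    have e1 : eg ε i = dg (ε i) := dif_pos i.2
    have e2 : bb⁻¹ ^ (i : ℕ) = bb ^ (1 - (n : ℤ)) * bb ^ ((n : ℤ) - 1 - i) := by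
      rw [← bb_zpow_add, inv_pow, ← zpow_natCast, ← zpow_neg]
      congr 1
      ring
    rw [e1, e2]
    unfold dg
    split_ifs <;> ring
  apply H_mono
  intro ω ω' h
  simp only [key]
  rw [h]

open Filter Topology in
theorem not_tendsto : ¬ Tendsto (fun n : ℕ =>
    H (fun ε : Fin n → Bool => ∑ i : Fin n, (if ε i then (1 : ℝ) else -1) * bb⁻¹ ^ (i : ℕ)) / n)
    atTop (𝓝 (Real.log bb)) := by
  intro h
  obtain ⟨N, ρ, hN, hK⟩ := exists_chain
  have hN' : (0 : ℝ) < N := by exact_mod_cast hN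
  have t0 : Tendsto (fun K : ℕ => K * N) atTop atTop := tendsto_id.atTop_mul_const' hN
  have t1 : Tendsto (fun n : ℕ => (2 * n + 7 : ℝ)) atTop atTop :=
    tendsto_atTop_add_const_right _ _ (tendsto_natCast_atTop_atTop.const_mul_atTop two_pos)
  have t2 := ((Real.tendsto_pow_log_div_mul_add_atTop (1 / 2) (-7 / 2) 1 (by norm_num)).comp
    t1).comp t0
  have t3 := (t2.const_mul 4).const_add (Real.log bb - 1 / N)
  have := le_of_tendsto_of_tendsto (h.comp t0) t3 (by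
    filter_upwards [eventually_gt_atTop 0] with K hK0
    have hK' : (0 : ℝ) < K := by exact_mod_cast hK0
    have h1 := ((H_val_le (K * N)).trans (H_XX_le (K * N) ρ)).trans
      (add_le_add_left (hK K) _)
    simp only [Function.comp]
    rw [div_le_iff₀ (by push_cast; positivity)]
    refine h1.trans (le_of_eq ?_)
    push_cast
    have e : 1 / 2 * (2 * ((K : ℝ) * N) + 7) + -7 / 2 = K * N := by ring
    rw [e]
    field_simp)
  have h2 : (0 : ℝ) < 1 / N := by positivity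
  linarith

end Pool.Agent.Lib.MP_e840b2_an
end
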